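import Mathlib

/-! The Cauchy-Schwarz step of TRANS. -/

set_option autoImplicit false

namespace Pool.Agent.D0H11.TW

open Finset

theorem cs_sq {ι : Type} (s : Finset ι) (f g : ι → ℝ) {F G : ℝ} (hF : 0 ≤ F)
    (h1 : ∑ i ∈ s, f i ^ 2 ≤ F) (h2 : ∑ i ∈ s, g i ^ 2 ≤ G) :
    ∑ i ∈ s, f i * g i ≤ Real.sqrt (F * G) := by
  apply Real.le_sqrt_of_sq_le
  refine (Finset.sum_mul_sq_le_sq_mul_sq s f g).trans ?_
  exact mul_le_mul h1 h2 (Finset.sum_nonneg fun i _ => sq_nonneg _) hF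

theorem cs_core (N : ℕ) (hN : 1 ≤ N) (a b r : ℕ → ℝ) (M C3 C4 C5 c2 E : ℝ) (hM : 0 < M) (hC3 : 0 < C3)
    (hC4 : 0 < C4) (hC5 : 0 < C5) (hc2 : 0 < c2) (hE : 0 ≤ E)
    (ha : ∀ n ∈ Icc 1 N, 0 ≤ a n) (hb : ∀ n ∈ Icc 1 N, 0 ≤ b n)
    (hr : ∀ n ∈ Icc 1 N, r n ≤ C3 * a n * b n / M + E)
    (h4 : ∑ n ∈ Icc 1 N, a n ^ 2 ≤ C4 * (N : ℝ) ^ 3) (h5 : ∑ n ∈ Icc 1 N, b n ^ 4 ≤ C5 * N)
    (hsum : c2 * (N : ℝ) ^ 2 / M ≤ ∑ n ∈ Icc 1 N, r n)
    (hEN : 2 * N * E ≤ c2 / 4 * ((N : ℝ) ^ 2 / M)) :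
    ((c2 / (2 * C3 * (8 * C3 * Real.sqrt (C4 * C5) / c2 + 1))) ^ 2 / C4) * N ≤
      ((((Icc 1 N).filter (fun n => c2 / 8 * N / M ≤ r n)).card : ℕ) : ℝ) := by
  classical
  have hN0 : (0 : ℝ) < N := by exact_mod_cast hN
  set D : ℝ := Real.sqrt (C4 * C5) with hD
  have hD0 : 0 < D := Real.sqrt_pos.2 (by positivity)
  set L : ℝ := 8 * C3 * D / c2 + 1 with hL
  have hL0 : 0 < L := by positivity
  set S1 := (Icc 1 N).filter (fun n => c2 / 8 * N / M ≤ r n) with hS1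
  -- pointwise bound
  have key : ∀ n ∈ Icc 1 N, r n ≤ (C3 / M) * (a n * b n ^ 2 / L) + E + c2 / 8 * N / M +
      (if n ∈ S1 then (C3 * L / M) * a n else 0) + E := by
    intro n hn
    have h0 := ha n hn
    have h1 := hb n hn
    have h2 := hr n hn
    by_cases hs : n ∈ S1
    · rw [if_pos hs]
      by_cases hbL : b n ≤ L
      · have h3 : C3 * a n * b n / M ≤ (C3 * L / M) * a n := by
          rw [div_mul_eq_mul_div]
          apply div_le_div_of_nonneg_right _ hM.le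
          nlinarith [mul_nonneg hC3.le h0]
        have h4 : 0 ≤ (C3 / M) * (a n * b n ^ 2 / L) := by positivity
        have h5 : 0 ≤ c2 / 8 * N / M := by positivity
        linarith
      · push Not at hbL
        have h3 : C3 * a n * b n / M ≤ (C3 / M) * (a n * b n ^ 2 / L) := by
          have e : (C3 / M) * (a n * b n ^ 2 / L) = (C3 * a n * b n / M) * (b n / L) := by
            field_simp
          rw [e]
          have h4 : 1 ≤ b n / L := by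
            rw [le_div_iff₀ hL0]; linarith
          have h5 : 0 ≤ C3 * a n * b n / M := by positivity
          nlinarith
        have h5 : 0 ≤ c2 / 8 * N / M := by positivity
        have h6 : 0 ≤ (C3 * L / M) * a n := by positivity
        linarith
    · rw [if_neg hs]
      have h3 : r n < c2 / 8 * N / M := by
        by_contra hc
        push Not at hc
        exact hs (by rw [hS1, mem_filter]; exact ⟨hn, hc⟩)
      have h4 : 0 ≤ (C3 / M) * (a n * b n ^ 2 / L) := by positivity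
      linarith
  have hs1 := Finset.sum_le_sum key
  have hab : ∑ n ∈ Icc 1 N, a n * b n ^ 2 ≤ D * (N : ℝ) ^ 2 := by
    have h6 : ∑ n ∈ Icc 1 N, (b n ^ 2) ^ 2 ≤ C5 * N := by
      refine le_trans (le_of_eq ?_) h5
      refine Finset.sum_congr rfl fun n _ => ?_
      ring
    have h7 := cs_sq (Icc 1 N) a (fun n => b n ^ 2) (F := C4 * (N : ℝ) ^ 3) (G := C5 * N) (by positivity) h4 h6
    refine h7.trans (le_of_eq ?_)
    rw [hD, show C4 * (N : ℝ) ^ 3 * (C5 * N) = (C4 * C5) * ((N : ℝ) ^ 2) ^ 2 by ring,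
      Real.sqrt_mul (by positivity), Real.sqrt_sq (by positivity)]
  have hS : ∑ n ∈ S1, a n ≤ Real.sqrt (C4 * (N : ℝ) ^ 3 * (S1.card : ℝ)) := by
    have h6 : ∑ n ∈ S1, a n ^ 2 ≤ C4 * (N : ℝ) ^ 3 :=
      (Finset.sum_le_sum_of_subset_of_nonneg (filter_subset _ _) (fun n _ _ => sq_nonneg _)).trans h4
    have h7 := cs_sq S1 a (fun _ => (1 : ℝ)) (F := C4 * (N : ℝ) ^ 3) (G := (S1.card : ℝ)) (by positivity) h6 (by simp)
    simpa using h7
  have e1 : ∑ n ∈ Icc 1 N, ((C3 / M) * (a n * b n ^ 2 / L) + E + c2 / 8 * N / M +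
      (if n ∈ S1 then (C3 * L / M) * a n else 0) + E) =
      (C3 / (M * L)) * ∑ n ∈ Icc 1 N, a n * b n ^ 2 + 2 * N * E + c2 / 8 * ((N : ℝ) ^ 2 / M) +
        (C3 * L / M) * ∑ n ∈ S1, a n := by
    rw [Finset.sum_add_distrib, Finset.sum_add_distrib, Finset.sum_add_distrib, Finset.sum_add_distrib]
    have e2 : ∑ n ∈ Icc 1 N, (if n ∈ S1 then (C3 * L / M) * a n else 0) = (C3 * L / M) * ∑ n ∈ S1, a n := by
      rw [← Finset.sum_filter, Finset.mul_sum]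
      refine Finset.sum_congr ?_ fun _ _ => rfl
      ext n
      rw [mem_filter]
      constructor
      · exact fun h => h.2
      · exact fun h => ⟨(mem_filter.1 h).1, h⟩
    have e3 : ∑ n ∈ Icc 1 N, (C3 / M) * (a n * b n ^ 2 / L) = (C3 / (M * L)) * ∑ n ∈ Icc 1 N, a n * b n ^ 2 := by
      rw [Finset.mul_sum]
      refine Finset.sum_congr rfl fun n _ => ?_
      field_simp
    rw [e2, e3, Finset.sum_const, Finset.sum_const, Nat.card_Icc, nsmul_eq_mul, nsmul_eq_mul]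
    have : ((N + 1 - 1 : ℕ) : ℝ) = N := by simp
    rw [this]
    field_simp
    ring
  rw [e1] at hs1
  have h8 : (C3 / (M * L)) * ∑ n ∈ Icc 1 N, a n * b n ^ 2 ≤ c2 / 8 * ((N : ℝ) ^ 2 / M) := by
    have h9 : (C3 / (M * L)) * ∑ n ∈ Icc 1 N, a n * b n ^ 2 ≤ (C3 / (M * L)) * (D * (N : ℝ) ^ 2) :=
      mul_le_mul_of_nonneg_left hab (by positivity)
    have h10 : C3 * D / L ≤ c2 / 8 := by
      rw [div_le_iff₀ hL0, hL]
      have : c2 / 8 * (8 * C3 * D / c2 + 1) = C3 * D + c2 / 8 := by field_simp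
      rw [this]
      linarith
    have h11 : (C3 / (M * L)) * (D * (N : ℝ) ^ 2) = (C3 * D / L) * ((N : ℝ) ^ 2 / M) := by field_simp
    rw [h11] at h9
    have h12 : (0 : ℝ) ≤ (N : ℝ) ^ 2 / M := by positivity
    nlinarith
  have h13 : c2 / 2 * ((N : ℝ) ^ 2 / M) ≤ (C3 * L / M) * Real.sqrt (C4 * (N : ℝ) ^ 3 * (S1.card : ℝ)) := by
    have h14 : (C3 * L / M) * ∑ n ∈ S1, a n ≤ (C3 * L / M) * Real.sqrt (C4 * (N : ℝ) ^ 3 * (S1.card : ℝ)) :=
      mul_le_mul_of_nonneg_left hS (by positivity)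
    have h15 : c2 * (N : ℝ) ^ 2 / M = c2 * ((N : ℝ) ^ 2 / M) := by ring
    rw [h15] at hsum
    nlinarith
  -- solve
  have h16 : c2 / (2 * C3 * L) * (N : ℝ) ^ 2 ≤ Real.sqrt (C4 * (N : ℝ) ^ 3 * (S1.card : ℝ)) := by
    have h17 : c2 / 2 * ((N : ℝ) ^ 2 / M) = (C3 * L / M) * (c2 / (2 * C3 * L) * (N : ℝ) ^ 2) := by
      field_simp
    rw [h17] at h13
    exact le_of_mul_le_mul_left h13 (by positivity)
  have h18 : (c2 / (2 * C3 * L) * (N : ℝ) ^ 2) ^ 2 ≤ C4 * (N : ℝ) ^ 3 * (S1.card : ℝ) := by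
    have h19 := pow_le_pow_left₀ (by positivity) h16 2
    rwa [Real.sq_sqrt (by positivity)] at h19
  rw [div_mul_eq_mul_div, div_le_iff₀ hC4]
  have h20 : (c2 / (2 * C3 * L)) ^ 2 * N * (N : ℝ) ^ 3 ≤ (S1.card : ℝ) * C4 * (N : ℝ) ^ 3 := by
    calc (c2 / (2 * C3 * L)) ^ 2 * N * (N : ℝ) ^ 3 = (c2 / (2 * C3 * L) * (N : ℝ) ^ 2) ^ 2 := by ring
      _ ≤ C4 * (N : ℝ) ^ 3 * (S1.card : ℝ) := h18
      _ = _ := by ring
  exact le_of_mul_le_mul_right h20 (by positivity)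

end Pool.Agent.D0H11.TW
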