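import Mathlib

/-!
# Project TW (helper11): statements

`Qf v = x² + 3y² + 5z² + 7w²`. Blueprint: table `files`, key `helper11/TW/blueprint.md`.
This file needs Mathlib only; the statements on spheres are in `StmB.lean`.
-/

set_option autoImplicit false

namespace Pool.Agent.D0H11.TW

open Finset Filter

/-- the coefficients `1, 3, 5, 7` -/
def cc : Fin 4 → ℤ := ![1, 3, 5, 7]

/-- the form `x² + 3y² + 5z² + 7w²` -/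
def Qf (v : Fin 4 → ℤ) : ℤ := ∑ i, cc i * v i ^ 2

/-- `420 t² + u t` -/
def ph (u t : ℤ) : ℤ := 420 * t ^ 2 + u * t

/-- `Qf (840 t + u) = 1680 * qf u t + Qf u` -/
def qf (u t : Fin 4 → ℤ) : ℤ := ∑ i, cc i * ph (u i) (t i)

/-- the vectors with coordinates `0 ≤ t i < T` -/
noncomputable def box (T : ℕ) : Finset (Fin 4 → ℤ) := Fintype.piFinset fun _ => Ico (0 : ℤ) T

/-- residues: `0 ≤ u i < 840` -/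
def InU (u : Fin 4 → ℤ) : Prop := ∀ i, 0 ≤ u i ∧ u i < 840

/-- good residues: for `l = 2, 3, 5, 7` some `cc i * u i` is prime to `l` -/
def GoodU (u : Fin 4 → ℤ) : Prop :=
  InU u ∧ ∀ l ∈ ({2, 3, 5, 7} : Finset ℤ), ∃ i, IsCoprime (cc i * u i) l

/-- `exp (2 π i x)` -/
noncomputable def ee (x : ℝ) : ℂ := Complex.exp (2 * Real.pi * Complex.I * x)

/-- the weight of the coordinate `0`: `ph (u 0) (t 0 + 1) - ph (u 0) (t 0)` -/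
noncomputable def wt (u t : Fin 4 → ℤ) : ℝ := ((840 * t 0 + 420 + u 0 : ℤ) : ℝ)

/-- the exponential sum -/
noncomputable def GG (T : ℕ) (u : Fin 4 → ℤ) (θ : ℝ) : ℂ :=
  ∑ t ∈ box T, (wt u t : ℂ) * ee (θ * (qf u t : ℤ))

/-- major arcs -/
def Maj (P : ℕ) (η : ℝ) : Set ℝ :=
  {θ | ∃ q ∈ Icc 1 P, ∃ a : ℤ, IsCoprime a (q : ℤ) ∧ |θ - a / (q : ℝ)| ≤ η}

/-- the trapezoid: `1` for `|β| ≤ η`, `0` for `|β| ≥ 2 η` -/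
noncomputable def tr (η β : ℝ) : ℝ := max 0 (min 1 (2 - |β| / η))

/-- its Fourier transform (`(cos (2 π η x) - cos (4 π η x)) / (2 π² η x²)`) -/
noncomputable def KK (η x : ℝ) : ℝ :=
  ∫ β in (-(2 * η))..(2 * η), tr η β * Real.cos (2 * Real.pi * β * x)

/-- Ramanujan's sum -/
noncomputable def rs (q : ℕ) (n : ℤ) : ℝ :=
  ∑ a ∈ (range q).filter (fun a => Nat.Coprime a q), Real.cos (2 * Real.pi * a * n / q)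

/-- local factor of the singular series -/
noncomputable def AA (q : ℕ) (u : Fin 4 → ℤ) (m : ℤ) : ℝ :=
  (1 / (q : ℝ) ^ 4) * ∑ s ∈ box q, rs q (m - qf u s)

/-- number of solutions modulo `q` -/
noncomputable def NN (q : ℕ) (u : Fin 4 → ℤ) (m : ℤ) : ℕ :=
  ((box q).filter (fun s => (q : ℤ) ∣ qf u s - m)).card

/-- 1. WEYL: Weyl's inequality for the quadratic polynomials `c (420 t² + u t)` -/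
def S_WEYL : Prop := ∃ C : ℝ, 0 < C ∧ ∀ (T q : ℕ) (a c u : ℤ) (θ : ℝ), 2 ≤ T → 1 ≤ q →
  IsCoprime a (q : ℤ) → |θ - a / (q : ℝ)| ≤ 1 / (q : ℝ) ^ 2 → 1 ≤ c → c ≤ 7 → 0 ≤ u → u < 840 →
  ‖∑ t ∈ Ico (0 : ℤ) T, ee (θ * (c * ph u t : ℤ))‖ ^ 2 ≤
    C * ((T : ℝ) ^ 2 / q + T + q) * (Real.log T + Real.log q + 1)

/-- 2. FOUR: the fourth moment -/
def S_FOUR : Prop := ∀ ε : ℝ, 0 < ε → ∃ C : ℝ, 0 < C ∧ ∀ (T : ℕ) (u : ℤ), 1 ≤ T → 0 ≤ u → u < 840 →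
  ((((box T).filter fun t => ph u (t 0) + ph u (t 1) = ph u (t 2) + ph u (t 3)).card : ℕ) : ℝ) ≤
    C * (T : ℝ) ^ (2 + ε)

/-- 3. MINOR (uses 1, 2): mean square over the minor arcs -/
def S_MINOR : Prop := ∀ κ ε : ℝ, 0 < κ → κ ≤ 1 / 10 → 0 < ε → ∃ C : ℝ, 0 < C ∧
  ∀ (T : ℕ) (u : Fin 4 → ℤ), 2 ≤ T → InU u →
    ∫ θ in Set.Icc (0 : ℝ) 1 \ Maj ⌊(T : ℝ) ^ κ⌋₊ ((T : ℝ) ^ (κ - 2)), ‖GG T u θ‖ ^ 2 ≤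
      C * (T : ℝ) ^ (8 - 2 * κ + ε)

/-- 4. ARC: the Fourier multiplier (Bessel's inequality) -/
def S_ARC : Prop := ∀ (ι : Type) (s : Finset ι) (val : ι → ℤ) (w : ι → ℝ) (P : ℕ) (η : ℝ),
  1 ≤ P → 0 < η → 4 * η * (P : ℝ) ^ 2 < 1 → ∀ M : Finset ℤ,
    ∑ m ∈ M, (∑ i ∈ s.filter (fun i => val i = m), w i -
      ∑ i ∈ s, w i * KK η (m - val i) * ∑ q ∈ Icc 1 P, rs q (m - val i)) ^ 2 ≤
    ∫ θ in Set.Icc (0 : ℝ) 1 \ Maj P η, ‖∑ i ∈ s, (w i : ℂ) * ee (θ * val i)‖ ^ 2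

/-- 5. KER: bounds for the kernel `KK` -/
def S_KER : Prop := ∃ C : ℝ, 0 < C ∧ ∀ η : ℝ, 0 < η → η ≤ 1 →
  (∀ x, |KK η x| ≤ 4 * η) ∧ (∀ x y, |KK η x - KK η y| ≤ C * η ^ 2 * |x - y|) ∧
  (∀ lo hi x Δ : ℝ, lo ≤ hi → 0 < Δ → |∫ s in lo..hi, KK η (x - s)| ≤ C ∧
    (lo + Δ ≤ x → x ≤ hi - Δ → |(∫ s in lo..hi, KK η (x - s)) - 1| ≤ C / (η * Δ)) ∧
    ((x ≤ lo - Δ ∨ hi + Δ ≤ x) → |∫ s in lo..hi, KK η (x - s)| ≤ C / (η * Δ)))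

/-- 6. EQUI (uses 5): two residue classes modulo `q` -/
def S_EQUI : Prop := ∃ C : ℝ, 0 < C ∧ ∀ (T q : ℕ) (u : Fin 4 → ℤ) (η : ℝ) (m : ℤ), 1 ≤ T → 1 ≤ q →
  q ≤ T → InU u → 0 < η → η ≤ 1 → ∀ s s' : Fin 4 → ℤ,
    |∑ t ∈ (box T).filter (fun t => ∀ i, (q : ℤ) ∣ t i - s i), wt u t * KK η (m - qf u t) -
      ∑ t ∈ (box T).filter (fun t => ∀ i, (q : ℤ) ∣ t i - s' i), wt u t * KK η (m - qf u t)| ≤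
    C * q * (T : ℝ) ^ 4 * (η + (T : ℝ) ^ 2 * η ^ 2)

/-- 7. MAIN (uses 5): lower bound for the main term -/
def S_MAIN : Prop := ∀ κ B : ℝ, 0 < κ → κ ≤ 1 / 10 → 1 ≤ B → ∃ c : ℝ, 0 < c ∧ ∃ T0 : ℕ,
  ∀ T : ℕ, T0 ≤ T → ∀ u, InU u → ∀ m : ℤ, (T : ℝ) ^ 2 / B ≤ m → (m : ℝ) ≤ 400 * (T : ℝ) ^ 2 →
    c * (T : ℝ) ^ 3 ≤ ∑ t ∈ box T, wt u t * KK ((T : ℝ) ^ (κ - 2)) (m - qf u t)

/-- 8. LOC: solutions modulo a prime `l ≥ 11` -/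
def S_LOC : Prop := ∀ (l : ℕ) (u : Fin 4 → ℤ) (m : ℤ), l.Prime → 11 ≤ l →
  ¬ (l : ℤ) ∣ 1680 * m + Qf u → |(NN l u m : ℤ) - (l : ℤ) ^ 3| ≤ l

/-- 9. HEN: solutions modulo prime powers -/
def S_HEN : Prop :=
  (∀ (l j : ℕ) (u : Fin 4 → ℤ) (m : ℤ), l.Prime → 11 ≤ l → ¬ (l : ℤ) ∣ 1680 * m + Qf u → 1 ≤ j →
    NN (l ^ (j + 1)) u m = l ^ 3 * NN (l ^ j) u m) ∧
  (∀ (l j : ℕ) (u : Fin 4 → ℤ) (m : ℤ), l ∈ ({2, 3, 5, 7} : Finset ℕ) → GoodU u →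
    NN (l ^ j) u m = l ^ (3 * j))

/-- 10. SER (uses 8, 9): the singular series -/
def S_SER : Prop := ∀ (u : Fin 4 → ℤ) (m : ℤ) (P : ℕ), GoodU u → 1 ≤ P →
  (∀ l : ℕ, l.Prime → 11 ≤ l → l ≤ P → ¬ (l : ℤ) ∣ 1680 * m + Qf u) →
    (1 / 2 : ℝ) ≤ ∑ q ∈ Icc 1 P, AA q u m

/-- 11. CLS: every prime `> 7` is in a good class -/
def S_CLS : Prop := ∀ p : ℕ, p.Prime → 7 < p → ∃ u, GoodU u ∧ (1680 : ℤ) ∣ (p : ℤ) - Qf u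

open Classical in
/-- 12. THMA (uses 3, 4, 5, 6, 7, 10): almost all `m` have the expected number of representations -/
def S_THMA : Prop := ∀ B : ℝ, 1 ≤ B → ∃ c : ℝ, 0 < c ∧ ∃ T0 : ℕ, ∀ T : ℕ, T0 ≤ T →
  ∀ u, GoodU u →
    ((((Icc 1 (400 * T ^ 2)).filter (fun m : ℕ => (T : ℝ) ^ 2 / B ≤ m ∧
      (∀ l : ℕ, l.Prime → 11 ≤ l → (l : ℝ) ≤ (T : ℝ) ^ (1 / 20 : ℝ) → ¬ (l : ℤ) ∣ 1680 * m + Qf u) ∧
      ((((box T).filter (fun t => qf u t = m)).card : ℕ) : ℝ) < c * (T : ℝ) ^ 2)).card : ℕ) : ℝ) ≤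
      (T : ℝ) ^ (2 - 1 / 20 : ℝ)

/-- 13. PEN: points on the intersection of two quadrics modulo `l` -/
def S_PEN : Prop := ∀ (l : ℕ) [Fact l.Prime] [NeZero l], 11 ≤ l → ∀ n τ : ZMod l, ¬ (n = 0 ∧ τ = 0) →
  |((((univ : Finset (Fin 4 → ZMod l)).filter (fun v => ∑ i, v i ^ 2 = n ∧
    ∑ i, ((cc i : ℤ) : ZMod l) * v i ^ 2 = τ)).card : ℕ) : ℝ) - (l : ℝ) ^ 2| ≤ 20 * l

/-- 16. PHI: a moment of `n / φ(n)` -/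
def S_PHI : Prop := ∃ C : ℝ, 0 < C ∧ ∀ N : ℕ,
  ∑ n ∈ Icc 1 N, ((n : ℝ) / Nat.totient n) ^ 4 ≤ C * N

open Classical in
/-- 17. MAY: several primes among `n + a`, `a ∈ R`, all `n + a` free of small prime factors
(from `Pool.Agent.H387R2.MB.low_eventually`) -/
def S_MAY : Prop := ∀ k : ℕ, ∃ (R : Finset ℕ) (δ c0 : ℝ) (B : ℕ), R.Nonempty ∧ 0 < δ ∧ 0 < c0 ∧
  1 ≤ B ∧ ∀ᶠ N : ℕ in atTop, c0 * N / Real.log N ^ R.card ≤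
    ((((Icc 1 N).filter (fun n => N ≤ B * n ∧ k + 1 ≤ (R.filter (fun a => (n + a).Prime)).card ∧
      ∀ a ∈ R, ∀ l : ℕ, l.Prime → (l : ℝ) ≤ (N : ℝ) ^ δ → ¬ l ∣ n + a)).card : ℕ) : ℝ)

open Classical in
/-- 18. CHN: primes `p` for which `p - 2` has no small prime factor -/
def S_CHN : Prop := ∃ (δ c0 : ℝ) (B : ℕ), 0 < δ ∧ 0 < c0 ∧ 1 ≤ B ∧
  ∀ᶠ N : ℕ in atTop, c0 * N / Real.log N ^ 2 ≤
    ((((Icc 3 N).filter (fun p => N ≤ B * p ∧ p.Prime ∧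
      ∀ l : ℕ, l.Prime → (l : ℝ) ≤ (N : ℝ) ^ δ → ¬ l ∣ p - 2)).card : ℕ) : ℝ)

open Classical in
/-- 19. TRANS (uses 11, 12, 14, 15, 16): many primes give many `n` -/
def S_TRANS : Prop := ∀ (H : Finset ℤ) (δ c0 : ℝ) (B : ℕ), (0 : ℤ) ∈ H → 0 < δ → 0 < c0 → 1 ≤ B →
  ∃ c : ℝ, 0 < c ∧ ∃ N0 : ℕ, ∀ N : ℕ, N0 ≤ N → ∀ G : Finset ℕ,
    (∀ p ∈ G, p ≤ N ∧ N ≤ B * p ∧ p.Prime ∧ ∀ h ∈ H, ∀ l : ℕ, l.Prime → (l : ℝ) ≤ (N : ℝ) ^ δ →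
      ¬ (l : ℤ) ∣ (p : ℤ) - h) →
    c0 * N / Real.log N ^ H.card ≤ (G.card : ℝ) →
    c * N ≤ ((((Icc 1 N).filter (fun n : ℕ => Odd n ∧ c * N / Real.log N ^ H.card ≤
      (({v : Fin 4 → ℤ | ∑ i, v i ^ 2 = (n : ℤ) ∧ ∃ p ∈ G, Qf v = p}.ncard : ℕ) : ℝ))).card : ℕ) : ℝ)

end Pool.Agent.D0H11.TW
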