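import Mathlib
import Pool.Agent.D0H11.TW.Stm
import Pool.Agent.W65.FS.Local
import Pool.Agent.W65.FS.Lower

/-!
# Project TW (helper11): statements on spheres (`reps n`, `preps n`, `pf` of `Pool.Agent.W65.FS`)
-/

set_option autoImplicit false

namespace Pool.Agent.D0H11.TW

open Finset Pool.Agent.W65.FS

open Classical in
/-- 14. SV (uses 13): upper bound sieve on the sphere, uniform in `n` -/
def S_SV : Prop := ∀ (H : Finset ℤ) (δ : ℝ), (0 : ℤ) ∈ H → 0 < δ → ∃ C : ℝ, 0 < C ∧ ∃ n0 : ℕ,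
  ∀ n : ℕ, n0 ≤ n → Odd n →
    ((((preps n).filter (fun v => ∀ h ∈ H, ∀ l : ℕ, l.Prime → (l : ℝ) ≤ (n : ℝ) ^ δ →
      ¬ (l : ℤ) ∣ pf v - h)).card : ℕ) : ℝ) ≤
      C * ((preps n).card : ℝ) * ((n : ℝ) / Nat.totient n) / Real.log n ^ H.card +
        (n : ℝ) ^ (99 / 100 : ℝ)

/-- 15. R4: second moment of the number of representations as a sum of four squares -/
def S_R4 : Prop := ∃ C : ℝ, 0 < C ∧ ∀ N : ℕ,
  ∑ n ∈ Icc 1 N, ((reps n).card : ℝ) ^ 2 ≤ C * (N : ℝ) ^ 3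

end Pool.Agent.D0H11.TW
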