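import Mathlib
import Pool.Agent.D0H11.TW.StmB
import Pool.Agent.D0H11.TW.CS

/-! Preparations for TRANS. -/

set_option autoImplicit false

namespace Pool.Agent.D0H11.TW

open Finset Pool.Agent.W65.FS

theorem Qf_shift (u t : Fin 4 → ℤ) : Qf (fun i => 840 * t i + u i) = 1680 * qf u t + Qf u := by
  unfold Qf qf ph
  simp only [Fin.sum_univ_four]
  ring

theorem pf_eq (v : Fin 4 → ℤ) : pf v = Qf v := by
  unfold pf Qf cc
  simp [Fin.sum_univ_four]

theorem Qf_expand (v : Fin 4 → ℤ) : Qf v = v 0 ^ 2 + 3 * v 1 ^ 2 + 5 * v 2 ^ 2 + 7 * v 3 ^ 2 := by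
  unfold Qf cc
  simp [Fin.sum_univ_four]

theorem sum_le_Qf (v : Fin 4 → ℤ) : ∑ i, v i ^ 2 ≤ Qf v := by
  rw [Qf_expand, Fin.sum_univ_four]
  nlinarith [sq_nonneg (v 0), sq_nonneg (v 1), sq_nonneg (v 2), sq_nonneg (v 3)]

theorem Qf_le_sum (v : Fin 4 → ℤ) : Qf v ≤ 7 * ∑ i, v i ^ 2 := by
  rw [Qf_expand, Fin.sum_univ_four]
  nlinarith [sq_nonneg (v 0), sq_nonneg (v 1), sq_nonneg (v 2), sq_nonneg (v 3)]

theorem Qf_parity (v : Fin 4 → ℤ) : (2 : ℤ) ∣ Qf v - ∑ i, v i ^ 2 := by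
  rw [Qf_expand, Fin.sum_univ_four]
  exact ⟨v 1 ^ 2 + 2 * v 2 ^ 2 + 3 * v 3 ^ 2, by ring⟩

theorem gc_one (v : Fin 4 → ℤ) (p : ℕ) (hp : p.Prime) (h : Qf v = p) : gc v = 1 := by
  have h1 : ∀ i, ((gc v : ℕ) : ℤ) ∣ v i := by
    intro i
    have : gc v ∣ (v i).natAbs := Finset.gcd_dvd (mem_univ i)
    exact Int.natCast_dvd.2 this
  have h2 : ((gc v : ℕ) : ℤ) ^ 2 ∣ (p : ℤ) := by
    rw [← h]
    unfold Qf
    apply Finset.dvd_sum
    intro i _
    exact Dvd.dvd.mul_left (pow_dvd_pow_of_dvd (h1 i) 2) _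
  have h3 : (gc v) ^ 2 ∣ p := by exact_mod_cast h2
  rcases (Nat.dvd_prime hp).1 ((dvd_pow_self (gc v) two_ne_zero).trans h3) with h4 | h4
  · exact h4
  · exfalso
    rw [h4] at h3
    have h5 := Nat.le_of_dvd hp.pos h3
    nlinarith [hp.two_le]

open Classical in
/-- the representations of `n` with value of `Qf` in `G` -/
noncomputable def RS (G : Finset ℕ) (n : ℕ) : Finset (Fin 4 → ℤ) :=
  (reps n).filter (fun v => ∃ p ∈ G, Qf v = p)

theorem mem_RS (G : Finset ℕ) (n : ℕ) (v : Fin 4 → ℤ) :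
    v ∈ RS G n ↔ ∑ i, v i ^ 2 = (n : ℤ) ∧ ∃ p ∈ G, Qf v = p := by
  unfold RS
  rw [mem_filter, mem_reps]

theorem RS_ncard (G : Finset ℕ) (n : ℕ) :
    {v : Fin 4 → ℤ | ∑ i, v i ^ 2 = (n : ℤ) ∧ ∃ p ∈ G, Qf v = p}.ncard = (RS G n).card := by
  rw [← Set.ncard_coe_finset]
  congr 1
  ext v
  rw [Finset.mem_coe, mem_RS]
  rfl

/-- `T` for `N` -/
def TT (N : ℕ) : ℕ := Nat.sqrt (N / 672000) + 1

theorem TT_low (N : ℕ) : (N : ℝ) < 672000 * (TT N : ℝ) ^ 2 := by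
  have h1 : N / 672000 < (TT N) ^ 2 := by
    unfold TT
    exact Nat.lt_succ_sqrt' _
  have h2 : N < 672000 * (N / 672000 + 1) := by
    have := Nat.div_add_mod N 672000
    have h3 := Nat.mod_lt N (by norm_num : 0 < 672000)
    omega
  have h3 : N < 672000 * (TT N) ^ 2 := lt_of_lt_of_le h2 (Nat.mul_le_mul_left _ h1)
  exact_mod_cast h3

theorem TT_upp (N : ℕ) (hN : 672000 ≤ N) : 168000 * (TT N : ℝ) ^ 2 ≤ N := by
  have h0 : 1 ≤ N / 672000 := (Nat.one_le_div_iff (by norm_num)).2 hN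
  have h1 : Nat.sqrt (N / 672000) ^ 2 ≤ N / 672000 := Nat.sqrt_le' _
  have h2 : 1 ≤ Nat.sqrt (N / 672000) := by
    rw [Nat.one_le_iff_ne_zero, Ne, Nat.sqrt_eq_zero]
    omega
  have h3 : (TT N) ^ 2 ≤ 4 * (N / 672000) := by
    unfold TT
    nlinarith
  have h4 : 672000 * (N / 672000) ≤ N := Nat.mul_div_le _ _
  have h5 : 168000 * (TT N) ^ 2 ≤ N := by
    calc 168000 * (TT N) ^ 2 ≤ 168000 * (4 * (N / 672000)) := Nat.mul_le_mul_left _ h3
      _ = 672000 * (N / 672000) := by ring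
      _ ≤ N := h4
  exact_mod_cast h5

theorem TT_tendsto : Filter.Tendsto TT Filter.atTop Filter.atTop := by
  apply Filter.tendsto_atTop.2
  intro b
  filter_upwards [Filter.eventually_ge_atTop (672000 * b ^ 2)] with N hN
  unfold TT
  have h1 : b ^ 2 ≤ N / 672000 := (Nat.le_div_iff_mul_le (by norm_num)).2 (by linarith)
  have h2 : b ≤ Nat.sqrt (N / 672000) := Nat.le_sqrt'.2 h1
  omega

/-- residue vectors -/
noncomputable def UU : Finset (Fin 4 → ℤ) := Fintype.piFinset fun _ => Ico (0 : ℤ) 840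

theorem mem_UU (u : Fin 4 → ℤ) : u ∈ UU ↔ InU u := by
  unfold UU InU
  rw [Fintype.mem_piFinset]
  simp only [mem_Ico]

theorem card_UU : UU.card = 840 ^ 4 := by
  unfold UU
  rw [Fintype.card_piFinset]
  simp

attribute [irreducible] UU

theorem Qf_u_bounds (u : Fin 4 → ℤ) (h : InU u) : 0 ≤ Qf u ∧ Qf u ≤ 11289600 := by
  have h0 := h 0
  have h1 := h 1
  have h2 := h 2
  have h3 := h 3
  rw [Qf_expand]
  constructor
  · positivity
  · nlinarith [mul_nonneg h0.1 (sub_nonneg.2 h0.2.le), mul_nonneg h1.1 (sub_nonneg.2 h1.2.le),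
      mul_nonneg h2.1 (sub_nonneg.2 h2.2.le), mul_nonneg h3.1 (sub_nonneg.2 h3.2.le)]

open Classical in
/-- the vectors `840 t + u` with `qf u t = m` -/
noncomputable def AV (T : ℕ) (u : Fin 4 → ℤ) (m : ℤ) : Finset (Fin 4 → ℤ) :=
  ((box T).filter (fun t => qf u t = m)).image (fun t i => 840 * t i + u i)

theorem card_AV (T : ℕ) (u : Fin 4 → ℤ) (m : ℤ) :
    (AV T u m).card = ((box T).filter (fun t => qf u t = m)).card := by
  classical
  unfold AV
  rw [Finset.card_image_of_injective]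
  intro t t' h
  funext i
  have := congrFun h i
  simp only at this
  omega

theorem AV_Qf {T : ℕ} {u : Fin 4 → ℤ} {m : ℤ} {v : Fin 4 → ℤ} (h : v ∈ AV T u m) :
    Qf v = 1680 * m + Qf u := by
  classical
  unfold AV at h
  rw [mem_image] at h
  obtain ⟨t, ht, rfl⟩ := h
  rw [Qf_shift, (mem_filter.1 ht).2]

/-- total number of representations with value in `G` -/
theorem total_ge (N : ℕ) (G G' : Finset ℕ) (hG' : G' ⊆ G) (hG : ∀ p ∈ G, 1 ≤ p ∧ p ≤ N) (T : ℕ)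
    (u : ℕ → Fin 4 → ℤ) (m : ℕ → ℤ) (hm : ∀ p ∈ G', (p : ℤ) = 1680 * m p + Qf (u p)) (a : ℝ)
    (ha : ∀ p ∈ G', a ≤ (((box T).filter (fun t => qf (u p) t = m p)).card : ℝ)) :
    (G'.card : ℝ) * a ≤ ∑ n ∈ Icc 1 N, ((RS G n).card : ℝ) := by
  classical
  have h1 : (G'.biUnion fun p => AV T (u p) (m p)) ⊆ (Icc 1 N).biUnion (fun n => RS G n) := by
    intro v hv
    rw [mem_biUnion] at hv ⊢
    obtain ⟨p, hp, hvp⟩ := hv
    have h2 : Qf v = p := by rw [AV_Qf hvp, hm p hp]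
    have h3 := hG p (hG' hp)
    have h4 : 0 ≤ ∑ i, v i ^ 2 := Finset.sum_nonneg fun i _ => sq_nonneg _
    obtain ⟨n, hn⟩ := Int.eq_ofNat_of_zero_le h4
    have h5 := sum_le_Qf v
    have h6 := Qf_le_sum v
    refine ⟨n, ?_, ?_⟩
    · rw [mem_Icc]
      rw [hn, h2] at h5 h6
      constructor
      · omega
      · omega
    · rw [mem_RS]
      exact ⟨hn, p, hG' hp, h2⟩
  have h2 := Finset.card_le_card h1
  rw [Finset.card_biUnion, Finset.card_biUnion] at h2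
  · have h3 : (∑ p ∈ G', ((AV T (u p) (m p)).card : ℝ)) ≤ ∑ n ∈ Icc 1 N, ((RS G n).card : ℝ) := by
      exact_mod_cast h2
    refine le_trans ?_ h3
    rw [← nsmul_eq_mul]
    apply Finset.card_nsmul_le_sum
    intro p hp
    rw [card_AV]
    exact ha p hp
  · intro n _ n' _ hne
    rw [Function.onFun, Finset.disjoint_left]
    intro v hv hv'
    rw [mem_RS] at hv hv'
    apply hne
    have := hv.1.symm.trans hv'.1
    exact_mod_cast this
  · intro p hp p' hp' hne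
    rw [Function.onFun, Finset.disjoint_left]
    intro v hv hv'
    apply hne
    have h3 := AV_Qf hv
    have h4 := AV_Qf hv'
    have h5 := hm p hp
    have h6 := hm p' hp'
    have : (p : ℤ) = p' := by rw [h5, h6, ← h3, ← h4]
    exact_mod_cast this

end Pool.Agent.D0H11.TW
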