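import Mathlib
import Pool.Agent.D0H11.TW.TrA
import Pool.Agent.W65.FS.Final

/-! The two theorems, from TRANS, MAY and CHN. -/

set_option autoImplicit false

namespace Pool.Agent.D0H11.TW

open Finset Filter Pool.Agent.W65.FS

/-- representations of `n` with a condition on `x² + 3y² + 5z² + 7w²` -/
def RP (n : ℕ) (P : ℕ → Prop) : Set (ℤ × ℤ × ℤ × ℤ) :=
  {v | (n : ℤ) = v.1 ^ 2 + v.2.1 ^ 2 + v.2.2.1 ^ 2 + v.2.2.2 ^ 2 ∧
    ∃ p : ℕ, (p : ℤ) = v.1 ^ 2 + 3 * v.2.1 ^ 2 + 5 * v.2.2.1 ^ 2 + 7 * v.2.2.2 ^ 2 ∧ P p}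

def crd (X : Fin 4 → ℤ) : ℤ × ℤ × ℤ × ℤ := (X 0, X 1, X 2, X 3)

lemma crd_inj : Function.Injective crd := by
  intro X Y h
  unfold crd at h
  simp only [Prod.mk.injEq] at h
  obtain ⟨h0, h1, h2, h3⟩ := h
  funext i
  fin_cases i
  · exact h0
  · exact h1
  · exact h2
  · exact h3

lemma RP_eq (n : ℕ) (P : ℕ → Prop) :
    RP n P = crd '' {v : Fin 4 → ℤ | ∑ i, v i ^ 2 = (n : ℤ) ∧ ∃ p : ℕ, Qf v = p ∧ P p} := by
  ext v
  constructor
  · rintro ⟨h1, p, h2, h3⟩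
    refine ⟨![v.1, v.2.1, v.2.2.1, v.2.2.2], ⟨?_, p, ?_, h3⟩, ?_⟩
    · rw [Fin.sum_univ_four, h1]; rfl
    · rw [Qf_expand, h2]; rfl
    · rfl
  · rintro ⟨X, ⟨h1, p, h2, h3⟩, rfl⟩
    refine ⟨?_, p, ?_, h3⟩
    · rw [← h1, Fin.sum_univ_four]; rfl
    · rw [← h2, Qf_expand]; rfl

lemma RP_ncard (n : ℕ) (P : ℕ → Prop) :
    (RP n P).ncard = {v : Fin 4 → ℤ | ∑ i, v i ^ 2 = (n : ℤ) ∧ ∃ p : ℕ, Qf v = p ∧ P p}.ncard := by
  rw [RP_eq, Set.ncard_image_of_injective _ crd_inj]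

lemma ncard_le (n : ℕ) (P : ℕ → Prop) (G : Finset ℕ) (hG : ∀ p ∈ G, P p) :
    {v : Fin 4 → ℤ | ∑ i, v i ^ 2 = (n : ℤ) ∧ ∃ p ∈ G, Qf v = p}.ncard ≤ (RP n P).ncard := by
  rw [RP_ncard]
  apply Set.ncard_le_ncard
  · rintro v ⟨h1, p, hp, h2⟩
    exact ⟨h1, p, h2, hG p hp⟩
  · apply Set.Finite.subset (reps n).finite_toSet
    rintro v ⟨h1, _⟩
    rw [Finset.mem_coe, mem_reps]
    exact h1

open Classical in
/-- number of `n ≤ N` with many good representations -/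
noncomputable def cnt (N : ℕ) (P : ℕ → Prop) (x : ℝ) : ℕ :=
  ((Icc 1 N).filter (fun n => Odd n ∧ x ≤ ((RP n P).ncard : ℝ))).card

open Classical in
lemma cnt_ge (N N' : ℕ) (hNN : N' ≤ N) (P : ℕ → Prop) (G : Finset ℕ) (hG : ∀ p ∈ G, P p) (x x' : ℝ) (hx : x ≤ x') :
    ((Icc 1 N').filter (fun n : ℕ => Odd n ∧ x' ≤
      (({v : Fin 4 → ℤ | ∑ i, v i ^ 2 = (n : ℤ) ∧ ∃ p ∈ G, Qf v = p}.ncard : ℕ) : ℝ))).card ≤ cnt N P x := by
  unfold cnt
  apply Finset.card_le_card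
  intro n hn
  rw [mem_filter, mem_Icc] at hn ⊢
  refine ⟨⟨hn.1.1, hn.1.2.trans hNN⟩, hn.2.1, ?_⟩
  refine (hx.trans hn.2.2).trans ?_
  exact_mod_cast ncard_le n P G hG

open Classical in
/-- `p` is prime and there are at least `k` primes in `[p - H, p)` -/
def PP1 (k H : ℕ) (p : ℕ) : Prop :=
  p.Prime ∧ k ≤ ((Ico (p - H) p).filter Nat.Prime).card

/-- `p` is prime and `p - 2` has at most `K` prime factors, all larger than `y` -/
def PP2 (K : ℕ) (y : ℝ) (p : ℕ) : Prop :=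
  p.Prime ∧ 3 ≤ p ∧ ArithmeticFunction.cardFactors (p - 2) ≤ K ∧ ∀ q : ℕ, q.Prime → q ∣ p - 2 → y < (q : ℝ)

open Classical in
theorem part1 (hT : S_TRANS) (hM : S_MAY) (k : ℕ) : ∃ (H K : ℕ) (c : ℝ), 0 < c ∧ ∃ N0 : ℕ, ∀ N : ℕ, N0 ≤ N →
    c * N ≤ (cnt N (PP1 k H) (c * N / Real.log N ^ K) : ℝ) := by
  obtain ⟨R, δ, c0, B, hR, hδ, hc0, hB, hev⟩ := hM k
  set K := R.card with hK
  have hK0 : 0 < K := Finset.card_pos.2 hR
  set H := R.sup id with hH
  have hRH : ∀ a ∈ R, a ≤ H := fun a ha => Finset.le_sup (f := id) ha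
  -- the shifts
  set Hs : ℕ → Finset ℤ := fun a => R.image (fun a' : ℕ => (a : ℤ) - (a' : ℤ)) with hHs
  have hHc : ∀ a, (Hs a).card = K := by
    intro a
    rw [hHs, hK]
    apply Finset.card_image_of_injective
    intro x y h
    simp only at h
    omega
  have hH0 : ∀ a ∈ R, (0 : ℤ) ∈ Hs a := by
    intro a ha
    rw [hHs, mem_image]
    exact ⟨a, ha, by ring⟩
  have key : ∀ a : ℕ, ∃ c : ℝ, 0 < c ∧ ∃ N0 : ℕ, a ∈ R → ∀ N : ℕ, N0 ≤ N → ∀ G : Finset ℕ,
    (∀ p ∈ G, p ≤ N ∧ N ≤ (2 * B) * p ∧ p.Prime ∧ ∀ h ∈ Hs a, ∀ l : ℕ, l.Prime → (l : ℝ) ≤ (N : ℝ) ^ (δ / 2) →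
      ¬ (l : ℤ) ∣ (p : ℤ) - h) →
    (c0 / (2 * K)) * N / Real.log N ^ K ≤ (G.card : ℝ) →
    c * N ≤ ((((Icc 1 N).filter (fun n : ℕ => Odd n ∧ c * N / Real.log N ^ K ≤
      (({v : Fin 4 → ℤ | ∑ i, v i ^ 2 = (n : ℤ) ∧ ∃ p ∈ G, Qf v = p}.ncard : ℕ) : ℝ))).card : ℕ) : ℝ) := by
    intro a
    by_cases ha : a ∈ R
    · obtain ⟨c, hc, N0, h⟩ := hT (Hs a) (δ / 2) (c0 / (2 * K)) (2 * B) (hH0 a ha) (by positivity) (by positivity) (by omega)
      refine ⟨c, hc, N0, fun _ N hN G hG hGc => ?_⟩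
      have := h N hN G hG (by rw [hHc]; exact hGc)
      rw [hHc] at this
      exact this
    · exact ⟨1, one_pos, 0, fun h => absurd h ha⟩
  choose c hc N0 key using key
  obtain ⟨a0, ha0⟩ := hR
  set cm : ℝ := R.inf' ⟨a0, ha0⟩ c with hcm
  have hcm0 : 0 < cm := (Finset.lt_inf'_iff _).2 fun a _ => hc a
  have hcmle : ∀ a ∈ R, cm ≤ c a := fun a ha => Finset.inf'_le _ ha
  refine ⟨H, K, cm / 2, by positivity, ?_⟩
  obtain ⟨N1, hN1⟩ := eventually_atTop.1 hev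
  refine ⟨2 * (N1 + R.sup N0 + H + 3) + 2, fun N hN => ?_⟩
  set n1 := N / 2 with hn1
  have hn1a : N1 ≤ n1 := by omega
  have hn1b : R.sup N0 ≤ n1 := by omega
  have hn1c : H + 3 ≤ n1 := by omega
  set N' := 2 * n1 with hN'
  have hN'N : N' ≤ N := by omega
  have hNN' : N ≤ N' + 1 := by omega
  have hn1r : (3 : ℝ) ≤ n1 := by exact_mod_cast (by omega : 3 ≤ n1)
  have hev1 := hN1 n1 hn1a
  set S := (Icc 1 n1).filter (fun n => n1 ≤ B * n ∧ k + 1 ≤ (R.filter (fun a => (n + a).Prime)).card ∧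
      ∀ a ∈ R, ∀ l : ℕ, l.Prime → (l : ℝ) ≤ (n1 : ℝ) ^ δ → ¬ l ∣ n + a) with hS
  -- the largest prime
  set mx : ℕ → ℕ := fun n => (R.filter (fun a => (n + a).Prime)).sup id with hmx
  have hmxmem : ∀ n ∈ S, mx n ∈ R ∧ (n + mx n).Prime := by
    intro n hn
    rw [hS, mem_filter] at hn
    have h1 : (R.filter (fun a => (n + a).Prime)).Nonempty := by
      rw [← Finset.card_pos]; omega
    obtain ⟨b, hb, hbe⟩ := Finset.exists_mem_eq_sup _ h1 id
    have : mx n = b := hbe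
    rw [this]
    exact ⟨(mem_filter.1 hb).1, (mem_filter.1 hb).2⟩
  -- pigeonhole
  have hcard : (S.card : ℝ) = ∑ a ∈ R, ((S.filter (fun n => mx n = a)).card : ℝ) := by
    have := Finset.card_eq_sum_card_fiberwise (s := S) (t := R) (f := mx) (fun n hn => (hmxmem n hn).1)
    rw [this]; push_cast; rfl
  obtain ⟨a, ha, hac⟩ : ∃ a ∈ R, (S.card : ℝ) / K ≤ ((S.filter (fun n => mx n = a)).card : ℝ) := by
    by_contra hcon
    push Not at hcon
    have h1 : ∑ a ∈ R, ((S.filter (fun n => mx n = a)).card : ℝ) < ∑ a ∈ R, (S.card : ℝ) / K :=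
      Finset.sum_lt_sum_of_nonempty ⟨a0, ha0⟩ hcon
    rw [← hcard, Finset.sum_const, nsmul_eq_mul, ← hK] at h1
    have hKr : (K : ℝ) ≠ 0 := by positivity
    rw [mul_div_cancel₀ _ hKr] at h1
    exact lt_irrefl _ h1
  set G := (S.filter (fun n => mx n = a)).image (fun n => n + a) with hG
  have hGc : (G.card : ℝ) = ((S.filter (fun n => mx n = a)).card : ℝ) := by
    rw [hG, Finset.card_image_of_injective]
    intro x y h
    simp only at h
    omega
  have hGprop : ∀ p ∈ G, ∃ n ∈ S, mx n = a ∧ p = n + a := by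
    intro p hp
    rw [hG, mem_image] at hp
    obtain ⟨n, hn, rfl⟩ := hp
    exact ⟨n, (mem_filter.1 hn).1, (mem_filter.1 hn).2, rfl⟩
  have hlog : 1 < Real.log n1 := by
    rw [Real.lt_log_iff_exp_lt (by linarith)]
    exact lt_of_lt_of_le (Real.exp_one_lt_d9.trans (by norm_num)) hn1r
  have hN'r : (N' : ℝ) = 2 * n1 := by rw [hN']; push_cast; ring
  have hlog2 : Real.log n1 ≤ Real.log N' := by
    apply Real.log_le_log (by linarith)
    rw [hN'r]; linarith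
  have hmain := key a ha N' (by
    have := Finset.le_sup (f := N0) ha
    omega) G (by
      intro p hp
      obtain ⟨n, hn, hna, rfl⟩ := hGprop p hp
      have hpr := (hmxmem n hn).2
      rw [hna] at hpr
      rw [hS, mem_filter, mem_Icc] at hn
      obtain ⟨⟨h1, h2⟩, h3, h4, h5⟩ := hn
      have haH := hRH a ha
      refine ⟨by omega, ?_, hpr, ?_⟩
      · calc N' = 2 * n1 := rfl
          _ ≤ 2 * (B * n) := Nat.mul_le_mul_left _ h3
          _ ≤ 2 * B * (n + a) := by nlinarith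
      · intro h hh l hl hle hdvd
        rw [hHs, mem_image] at hh
        obtain ⟨a', ha', rfl⟩ := hh
        apply h5 a' ha' l hl
        · refine hle.trans ?_
          have h6 : (N' : ℝ) ≤ (n1 : ℝ) ^ 2 := by rw [hN'r]; nlinarith
          calc (N' : ℝ) ^ (δ / 2) ≤ ((n1 : ℝ) ^ 2) ^ (δ / 2) := Real.rpow_le_rpow (by positivity) h6 (by positivity)
            _ = (n1 : ℝ) ^ δ := by
                rw [← Real.rpow_natCast, ← Real.rpow_mul (by positivity)]
                congr 1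
                push_cast
                ring
        · have h7 : ((n + a : ℕ) : ℤ) - ((a : ℤ) - (a' : ℤ)) = ((n + a' : ℕ) : ℤ) := by push_cast; ring
          rw [h7] at hdvd
          exact_mod_cast hdvd) (by
      rw [hGc]
      refine le_trans ?_ hac
      have h1 : c0 * n1 / Real.log n1 ^ K ≤ (S.card : ℝ) := hev1
      have hKr : (0 : ℝ) < K := by exact_mod_cast hK0
      rw [le_div_iff₀ hKr]
      refine le_trans ?_ h1
      rw [hN'r]
      have h2 : c0 / (2 * K) * (2 * n1) / Real.log N' ^ K * K = c0 * n1 / Real.log N' ^ K := by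
        field_simp
      rw [show (N' : ℝ) = 2 * n1 from hN'r] at h2 hlog2
      rw [h2]
      apply div_le_div_of_nonneg_left (by positivity) (by positivity)
      exact pow_le_pow_left₀ (by linarith) hlog2 K)
  have hPP : ∀ p ∈ G, PP1 k H p := by
    intro p hp
    obtain ⟨n, hn, hna, rfl⟩ := hGprop p hp
    have hpr := (hmxmem n hn).2
    rw [hna] at hpr
    refine ⟨hpr, ?_⟩
    rw [hS, mem_filter] at hn
    have h1 := hn.2.2.1
    have h2 : ((R.filter (fun b => (n + b).Prime)).erase a).image (fun b => n + b) ⊆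
        (Ico (n + a - H) (n + a)).filter Nat.Prime := by
      intro q hq
      rw [mem_image] at hq
      obtain ⟨b, hb, rfl⟩ := hq
      rw [mem_erase, mem_filter] at hb
      rw [mem_filter, mem_Ico]
      have h3 : b ≤ a := by
        rw [← hna]
        exact Finset.le_sup (f := id) (mem_filter.2 hb.2)
      have h4 := hRH a ha
      refine ⟨⟨by omega, by omega⟩, hb.2.2⟩
    have h3 := Finset.card_le_card h2
    rw [Finset.card_image_of_injective _ (fun x y h => by simpa using h)] at h3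
    have h4 := Finset.pred_card_le_card_erase (s := R.filter (fun b => (n + b).Prime)) (a := a)
    omega
  have hfin := cnt_ge N N' hN'N (PP1 k H) G hPP (cm / 2 * N / Real.log N ^ K) (c a * N' / Real.log N' ^ K) (by
    have h1 : (N : ℝ) ≤ 2 * N' := by
      have : N ≤ 2 * N' := by omega
      exact_mod_cast this
    have h2 : Real.log N' ≤ Real.log N := by
      apply Real.log_le_log (by rw [hN'r]; linarith)
      exact_mod_cast hN'N
    have h3 : 0 < Real.log N' := by linarith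
    apply div_le_div₀ (by have := (hc a).le; positivity)
    · have := hcmle a ha
      nlinarith [(hc a), (Nat.cast_nonneg N' : (0 : ℝ) ≤ N')]
    · positivity
    · exact pow_le_pow_left₀ h3.le h2 K)
  have h1 : (N : ℝ) ≤ 2 * N' := by
    have : N ≤ 2 * N' := by omega
    exact_mod_cast this
  have h2 : cm / 2 * N ≤ c a * N' := by
    have := hcmle a ha
    nlinarith [(hc a), (Nat.cast_nonneg N' : (0 : ℝ) ≤ N')]
  refine h2.trans (hmain.trans ?_)
  exact_mod_cast hfin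

open Classical in
theorem part2 (hT : S_TRANS) (hC : S_CHN) : ∃ (K : ℕ) (δ c : ℝ), 0 < δ ∧ 0 < c ∧ ∃ N0 : ℕ, ∀ N : ℕ, N0 ≤ N →
    c * N ≤ (cnt N (PP2 K ((N : ℝ) ^ δ)) (c * N / Real.log N ^ 2) : ℝ) := by
  obtain ⟨δ, c0, B, hδ, hc0, hB, hev⟩ := hC
  set δ' : ℝ := min δ (1 / 2) with hδ'
  have hδ0 : 0 < δ' := lt_min hδ (by norm_num)
  obtain ⟨c, hc, N0, h⟩ := hT {0, 2} δ' c0 B (by simp) hδ0 hc0 hB
  obtain ⟨N1, hN1⟩ := eventually_atTop.1 hev
  have hcard : (({0, 2} : Finset ℤ)).card = 2 := by decide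
  refine ⟨⌈1 / δ'⌉₊, δ', c, hδ0, hc, N0 + N1 + B ^ 2 + 2, fun N hN => ?_⟩
  have hNr : (2 : ℝ) ≤ N := by exact_mod_cast (by omega : 2 ≤ N)
  set G := (Icc 3 N).filter (fun p => N ≤ B * p ∧ p.Prime ∧
      ∀ l : ℕ, l.Prime → (l : ℝ) ≤ (N : ℝ) ^ δ → ¬ l ∣ p - 2) with hG
  have hNδ : (N : ℝ) ^ δ' ≤ (N : ℝ) ^ δ := Real.rpow_le_rpow_of_exponent_le (by linarith) (min_le_left _ _)
  have hmain := h N (by omega) G (by
    intro p hp
    rw [hG, mem_filter, mem_Icc] at hp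
    obtain ⟨⟨h1, h2⟩, h3, h4, h5⟩ := hp
    refine ⟨h2, h3, h4, ?_⟩
    intro h hh l hl hle hdvd
    rw [mem_insert, mem_singleton] at hh
    rcases hh with rfl | rfl
    · rw [sub_zero] at hdvd
      have h6 : l ∣ p := by exact_mod_cast hdvd
      have h7 : l = p := (Nat.prime_dvd_prime_iff_eq hl h4).1 h6
      rw [h7] at hle
      have h8 : (p : ℝ) ≤ (N : ℝ) ^ (1 / 2 : ℝ) :=
        hle.trans (Real.rpow_le_rpow_of_exponent_le (by linarith) (min_le_right _ _))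
      rw [← Real.sqrt_eq_rpow] at h8
      have h9 : (p : ℝ) ^ 2 ≤ N := by
        have := pow_le_pow_left₀ (by positivity) h8 2
        rwa [Real.sq_sqrt (by positivity)] at this
      have h10 : p ^ 2 ≤ N := by exact_mod_cast h9
      have h11 : B < p := by
        by_contra hc
        have : B * p ≤ B * B := Nat.mul_le_mul_left _ (by omega)
        have : B ^ 2 = B * B := by ring
        omega
      have : p * p ≤ B * p := by nlinarith
      have := Nat.le_of_mul_le_mul_right this (by omega)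
      omega
    · apply h5 l hl (hle.trans hNδ)
      have h6 : (p : ℤ) - 2 = ((p - 2 : ℕ) : ℤ) := by
        rw [Nat.cast_sub (by omega)]; rfl
      rw [h6] at hdvd
      exact_mod_cast hdvd) (by
    rw [hcard]
    exact hN1 N (by omega))
  rw [hcard] at hmain
  have hPP : ∀ p ∈ G, PP2 ⌈1 / δ'⌉₊ ((N : ℝ) ^ δ') p := by
    intro p hp
    rw [hG, mem_filter, mem_Icc] at hp
    obtain ⟨⟨h1, h2⟩, h3, h4, h5⟩ := hp
    have h6 : ∀ q : ℕ, q.Prime → q ∣ p - 2 → (N : ℝ) ^ δ' < (q : ℝ) := by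
      intro q hq hqp
      by_contra hcon
      push Not at hcon
      exact h5 q hq (hcon.trans hNδ) hqp
    refine ⟨h4, h1, ?_, h6⟩
    have h7 := omega_bound ((N : ℝ) ^ δ') (by positivity) (p - 2) (by omega) (fun q hq hqp => (h6 q hq hqp).le)
    have h8 : (((p - 2 : ℕ) : ℕ) : ℝ) ≤ N := by
      have : p - 2 ≤ N := by omega
      exact_mod_cast this
    have h9 : ((N : ℝ) ^ δ') ^ (ArithmeticFunction.cardFactors (p - 2)) ≤ (N : ℝ) ^ (1 : ℝ) := by
      rw [Real.rpow_one]; exact h7.trans h8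
    rw [← Real.rpow_natCast, ← Real.rpow_mul (by positivity)] at h9
    have h10 := (Real.rpow_le_rpow_left_iff (by linarith : (1 : ℝ) < N)).1 h9
    have h11 : (ArithmeticFunction.cardFactors (p - 2) : ℝ) ≤ 1 / δ' := by
      rw [le_div_iff₀ hδ0]; linarith
    exact_mod_cast h11.trans (Nat.le_ceil _)
  refine hmain.trans ?_
  exact_mod_cast cnt_ge N N le_rfl (PP2 ⌈1 / δ'⌉₊ ((N : ℝ) ^ δ')) G hPP (c * N / Real.log N ^ 2) _ le_rfl

end Pool.Agent.D0H11.TW
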