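import Mathlib
import Pool.Agent.D0H11.TW.Fin
import Pool.Agent.Erdos456.Sieve

/-! Prime pairs with a fixed difference, and a pigeonhole argument. -/

set_option autoImplicit false

namespace Pool.Agent.D0H11.TW

open Finset Filter Pool.Agent.W65.FS

/-- `p` and `p - h` are prime -/
def PP3 (h : ℕ) (p : ℕ) : Prop := p.Prime ∧ (p - h).Prime

open Classical in
/-- the number of `p ≤ N` with `p`, `p - h` prime -/
noncomputable def tw (h N : ℕ) : ℕ := ((Icc 1 N).filter (PP3 h)).card

open Classical in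
lemma tw_le (h : ℕ) (hh : 1 ≤ h) : ∃ C : ℝ, 0 < C ∧ ∀ N : ℕ, 2 ≤ N → (tw h N : ℝ) ≤ C * N / Real.log N ^ 2 := by
  obtain ⟨C, hC, hs⟩ := Pool.Agent.Erdos456.sieve_two
  refine ⟨C * ((h : ℝ) / Nat.totient h) ^ 2, ?_, fun N hN => ?_⟩
  · have : 0 < Nat.totient h := Nat.totient_pos.2 hh
    positivity
  have h1 := hs 1 0 1 h N one_pos one_pos (by simp) (by simp) (by omega) hN
  have e1 : ((1 * 1 * (((1 * h : ℕ) : ℤ) - ((1 * 0 : ℕ) : ℤ)).natAbs : ℕ)) = h := by simp
  rw [e1] at h1
  have h2 : tw h N ≤ ((Finset.Icc 1 N).filter (fun n => (1 * n + 0).Prime ∧ (1 * n + h).Prime)).card := by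
    unfold tw
    apply Finset.card_le_card_of_injOn (fun p => p - h)
    · intro p hp
      rw [mem_coe, mem_filter, mem_Icc] at hp
      obtain ⟨⟨h3, h4⟩, h5, h6⟩ := hp
      have h7 := h6.two_le
      rw [mem_coe, mem_filter, mem_Icc, one_mul, add_zero]
      simp only at h7 ⊢
      refine ⟨⟨by omega, by omega⟩, h6, ?_⟩
      have : p - h + h = p := by omega
      rw [this]
      exact h5
    · intro p hp q hq hpq
      rw [mem_coe, mem_filter] at hp hq
      have h7 := hp.2.2.two_le
      have h8 := hq.2.2.two_le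
      simp only at hpq
      omega
  have h3 : (tw h N : ℝ) ≤
      (((Finset.Icc 1 N).filter (fun n => (1 * n + 0).Prime ∧ (1 * n + h).Prime)).card : ℝ) := by
    exact_mod_cast h2
  refine h3.trans (h1.trans (le_of_eq ?_))
  rfl

open Classical in
theorem part3 (hT : S_TRANS) (h : ℕ) (hh : 1 ≤ h) (c0 : ℝ) (hc0 : 0 < c0) : ∃ c : ℝ, 0 < c ∧ ∃ N0 : ℕ,
    ∀ N : ℕ, N0 ≤ N → c0 * N / Real.log N ^ 2 ≤ tw h N →
      c * N ≤ (cnt N (PP3 h) (c * N / Real.log N ^ 2) : ℝ) := by
  obtain ⟨C, hC, htw⟩ := tw_le h hh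
  -- choose `B`
  obtain ⟨B, hB⟩ := exists_nat_ge (32 * C / c0 + 1)
  have hB1 : (1 : ℝ) ≤ B := le_trans (by have : 0 ≤ 32 * C / c0 := by positivity
                                         linarith) hB
  have hB1n : 1 ≤ B := by exact_mod_cast hB1
  have hBc : 32 * C ≤ c0 * B := by
    have : 32 * C / c0 ≤ B := by linarith
    rw [div_le_iff₀ hc0] at this
    linarith
  have hcard : (({0, (h : ℤ)} : Finset ℤ)).card = 2 := by
    rw [Finset.card_pair]
    have : (h : ℤ) ≠ 0 := by exact_mod_cast (by omega : h ≠ 0)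
    exact this.symm
  obtain ⟨c, hc, N0, hmain⟩ := hT {0, (h : ℤ)} (1 / 2) (c0 / 2) B (by simp) (by norm_num) (by positivity) hB1n
  refine ⟨c, hc, N0 + B * (2 * B + 2 * h + 4) + 4 * B + 16, fun N hN hcount => ?_⟩
  set G := (Icc 1 N).filter (fun p => N ≤ B * p ∧ PP3 h p) with hG
  have hNbig : 16 ≤ N := by omega
  have hNr : (16 : ℝ) ≤ N := by exact_mod_cast hNbig
  have hN0 : (0 : ℝ) < N := by linarith
  have hlogN : 0 < Real.log N := Real.log_pos (by linarith)
  set M := N / B with hM
  have hMB : M * B ≤ N := Nat.div_mul_le_self N B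
  have hNB : B * (2 * B + 2 * h + 4) < N := by omega
  have hM2 : 4 ≤ M := by
    rw [hM, Nat.le_div_iff_mul_le (by omega)]
    omega
  have hMlow : (N : ℝ) ≤ (M : ℝ) ^ 2 * 4 := by
    have h1 : N < (M + 1) * B := by
      have h2 := Nat.div_add_mod N B
      have h3 := Nat.mod_lt N (show 0 < B by omega)
      rw [← hM] at h2
      nlinarith
    have h2 : B ≤ M := by
      rw [hM, Nat.le_div_iff_mul_le (by omega)]
      have : B * B ≤ B * (2 * B + 2 * h + 4) := Nat.mul_le_mul_left _ (by omega)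
      omega
    have h3 : N ≤ M ^ 2 * 4 := by nlinarith
    exact_mod_cast h3
  have hMr : (4 : ℝ) ≤ M := by exact_mod_cast hM2
  have hlogM : Real.log N / 4 ≤ Real.log M := by
    have h1 : Real.log N ≤ Real.log ((M : ℝ) ^ 2 * 4) := Real.log_le_log hN0 hMlow
    rw [Real.log_mul (by positivity) (by norm_num), Real.log_pow] at h1
    have h2 : Real.log 4 ≤ Real.log M := Real.log_le_log (by norm_num) hMr
    have h3 : 0 < Real.log 4 := Real.log_pos (by norm_num)
    push_cast at h1
    linarith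
  have hsplit : tw h N ≤ G.card + tw h M := by
    unfold tw
    rw [hG]
    refine (Finset.card_le_card ?_).trans (Finset.card_union_le _ _)
    intro p hp
    rw [mem_filter, mem_Icc] at hp
    rw [mem_union, mem_filter, mem_filter, mem_Icc, mem_Icc]
    obtain ⟨⟨h1, h2⟩, h3⟩ := hp
    by_cases h4 : N ≤ B * p
    · exact Or.inl ⟨⟨h1, h2⟩, h4, h3⟩
    · refine Or.inr ⟨⟨h1, ?_⟩, h3⟩
      rw [hM, Nat.le_div_iff_mul_le (by omega)]
      have : p * B = B * p := mul_comm _ _
      omega
  have hMtw : (tw h M : ℝ) ≤ c0 / 2 * N / Real.log N ^ 2 := by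
    have h1 := htw M (by omega)
    have hMN : (M : ℝ) * B ≤ N := by exact_mod_cast hMB
    have h2 : C * M / Real.log M ^ 2 ≤ C * M / (Real.log N / 4) ^ 2 := by
      apply div_le_div_of_nonneg_left (by positivity) (by positivity)
      exact pow_le_pow_left₀ (by positivity) hlogM 2
    refine h1.trans (h2.trans ?_)
    rw [div_le_div_iff₀ (by positivity) (by positivity)]
    have h3 : C * M * 32 ≤ c0 * N := by
      have : C * M * 32 ≤ c0 * B * M := by nlinarith
      have : c0 * B * M ≤ c0 * N := by nlinarith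
      linarith
    have h4 : 0 < Real.log N ^ 2 := by positivity
    nlinarith
  have hGcard : c0 / 2 * N / Real.log N ^ 2 ≤ (G.card : ℝ) := by
    have h1 : (tw h N : ℝ) ≤ G.card + tw h M := by exact_mod_cast hsplit
    have h2 : c0 * N / Real.log N ^ 2 = c0 / 2 * N / Real.log N ^ 2 + c0 / 2 * N / Real.log N ^ 2 := by ring
    linarith
  have hfin := hmain N (by omega) G (by
    intro p hp
    rw [hG, mem_filter, mem_Icc] at hp
    obtain ⟨⟨h1, h2⟩, h3, h4, h5⟩ := hp
    have h5p := h5.two_le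
    refine ⟨h2, h3, h4, ?_⟩
    -- the general fact: a prime `r` with `p ≤ r + h` has `r ^ 2 > N`
    have hbig : ∀ r : ℕ, p ≤ r + h → (N : ℝ) ^ (1 / 2 : ℝ) < r := by
      intro r hr
      by_contra hcon
      push Not at hcon
      rw [← Real.sqrt_eq_rpow] at hcon
      have h9 : (r : ℝ) ^ 2 ≤ N := by
        have := pow_le_pow_left₀ (by positivity) hcon 2
        rwa [Real.sq_sqrt (by positivity)] at this
      have h10 : r ^ 2 ≤ N := by exact_mod_cast h9
      have h11 : r ^ 2 ≤ B * (r + h) := h10.trans (h3.trans (Nat.mul_le_mul_left _ hr))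
      have h12 : N ≤ B * (r + h) := h3.trans (Nat.mul_le_mul_left _ hr)
      have h13 : 2 * B < r := by
        by_contra hc'
        push Not at hc'
        have : B * (r + h) ≤ B * (2 * B + 2 * h + 4) := Nat.mul_le_mul_left _ (by omega)
        omega
      have h14 : h < r := by
        by_contra hc'
        push Not at hc'
        have : B * (r + h) ≤ B * (2 * B + 2 * h + 4) := Nat.mul_le_mul_left _ (by omega)
        omega
      have h15 : B * (r + h) ≤ B * (2 * r) := Nat.mul_le_mul_left _ (by omega)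
      have h16 : B * (2 * r) = (2 * B) * r := by ring
      have h17 : (2 * B) * r < r * r := Nat.mul_lt_mul_of_pos_right h13 (by omega)
      have h18 : r ^ 2 = r * r := by ring
      omega
    intro a ha l hl hle hdvd
    rw [mem_insert, mem_singleton] at ha
    rcases ha with rfl | rfl
    · rw [sub_zero] at hdvd
      have h6 : l ∣ p := by exact_mod_cast hdvd
      have h7 : l = p := (Nat.prime_dvd_prime_iff_eq hl h4).1 h6
      exact absurd hle (not_le.2 (hbig l (by omega)))
    · have h6 : (p : ℤ) - h = ((p - h : ℕ) : ℤ) := by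
        rw [Nat.cast_sub (by omega)]
      rw [h6] at hdvd
      have h7 : l ∣ p - h := by exact_mod_cast hdvd
      have h8 : l = p - h := (Nat.prime_dvd_prime_iff_eq hl h5).1 h7
      exact absurd hle (not_le.2 (hbig l (by omega)))) (by
    rw [hcard]
    exact hGcard)
  rw [hcard] at hfin
  refine hfin.trans ?_
  exact_mod_cast cnt_ge N N le_rfl (PP3 h) G (fun p hp => (mem_filter.1 hp).2.2) (c * N / Real.log N ^ 2) _ le_rfl

/-- `p` is prime and all `p - h`, `h ∈ S`, are prime -/
def PP4 (S : Finset ℕ) (p : ℕ) : Prop := p.Prime ∧ ∀ h ∈ S, (p - h).Prime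

lemma RP_fin (n : ℕ) (P : ℕ → Prop) : (RP n P).Finite := by
  rw [RP_eq]
  apply Set.Finite.image
  apply Set.Finite.subset (reps n).finite_toSet
  rintro v ⟨h1, _⟩
  rw [Finset.mem_coe, mem_reps]
  exact h1

open Classical in
lemma PP1_sub (k H : ℕ) (n : ℕ) : RP n (PP1 k H) ⊆ ⋃ S ∈ (Icc 1 H).powersetCard k, RP n (PP4 S) := by
  rintro v ⟨h1, p, h2, h3, h4⟩
  obtain ⟨Q, hQ, hQc⟩ := Finset.exists_subset_card_eq h4
  rw [Set.mem_iUnion₂]
  refine ⟨Q.image (fun q => p - q), ?_, h1, p, h2, h3, ?_⟩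
  · rw [mem_powersetCard]
    constructor
    · intro a ha
      rw [mem_image] at ha
      obtain ⟨q, hq, rfl⟩ := ha
      have := hQ hq
      rw [mem_filter, mem_Ico] at this
      rw [mem_Icc]
      omega
    · rw [Finset.card_image_of_injOn, hQc]
      intro a ha b hb hab
      have h5 := hQ ha
      have h6 := hQ hb
      rw [mem_filter, mem_Ico] at h5 h6
      simp only at hab
      omega
  · intro a ha
    rw [mem_image] at ha
    obtain ⟨q, hq, rfl⟩ := ha
    have h5 := hQ hq
    rw [mem_filter, mem_Ico] at h5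
    have : p - (p - q) = q := by omega
    rw [this]
    exact h5.2

open Classical in
lemma cnt_split (k H N : ℕ) (x : ℝ) (hx : 0 < x) :
    cnt N (PP1 k H) x ≤ ∑ S ∈ (Icc 1 H).powersetCard k,
      cnt N (PP4 S) (x / (((Icc 1 H).powersetCard k).card : ℝ)) := by
  unfold cnt
  refine (Finset.card_le_card ?_).trans Finset.card_biUnion_le
  intro n hn
  rw [mem_filter] at hn
  obtain ⟨h1, h2, h3⟩ := hn
  rw [mem_biUnion]
  by_contra hcon
  push Not at hcon
  have h4 : ∀ S ∈ (Icc 1 H).powersetCard k, ((RP n (PP4 S)).ncard : ℝ) <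
      x / (((Icc 1 H).powersetCard k).card : ℝ) := by
    intro S hS
    have := hcon S hS
    rw [mem_filter] at this
    push Not at this
    exact this h1 h2
  have h5 : (RP n (PP1 k H)).ncard ≤ ∑ S ∈ (Icc 1 H).powersetCard k, (RP n (PP4 S)).ncard := by
    refine (Set.ncard_le_ncard (PP1_sub k H n) ?_).trans ?_
    · exact Set.Finite.biUnion (Finset.finite_toSet _) (fun S _ => RP_fin n _)
    · induction (Icc 1 H).powersetCard k using Finset.induction_on with
      | empty => simp
      | insert S T hST ih =>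
        rw [Finset.sum_insert hST, Finset.set_biUnion_insert]
        exact (Set.ncard_union_le _ _).trans (Nat.add_le_add_left ih _)
  have h6 : ((RP n (PP1 k H)).ncard : ℝ) ≤ ∑ S ∈ (Icc 1 H).powersetCard k, ((RP n (PP4 S)).ncard : ℝ) := by
    exact_mod_cast h5
  rcases ((Icc 1 H).powersetCard k).eq_empty_or_nonempty with he | he
  · rw [he, Finset.sum_empty] at h6
    linarith
  · have h7 := Finset.sum_lt_sum_of_nonempty he h4
    rw [Finset.sum_const, nsmul_eq_mul, mul_div_cancel₀] at h7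
    · linarith
    · have : 0 < ((Icc 1 H).powersetCard k).card := Finset.card_pos.2 he
      positivity

open Classical in
/-- if `S` contains an odd number, only small `n` are possible -/
lemma cnt_odd (S : Finset ℕ) (a : ℕ) (ha : a ∈ S) (hodd : Odd a) (N : ℕ) (x : ℝ) (hx : 0 < x) :
    cnt N (PP4 S) x ≤ a + 2 := by
  unfold cnt
  have : ((Icc 1 N).filter (fun n => Odd n ∧ x ≤ ((RP n (PP4 S)).ncard : ℝ))) ⊆ Icc 1 (a + 2) := by
    intro n hn
    rw [mem_filter, mem_Icc] at hn
    obtain ⟨⟨h1, h2⟩, h3, h4⟩ := hn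
    rw [mem_Icc]
    refine ⟨h1, ?_⟩
    have h5 : (RP n (PP4 S)).Nonempty := by
      rw [Set.nonempty_iff_ne_empty]
      intro he
      rw [he, Set.ncard_empty] at h4
      push_cast at h4
      linarith
    obtain ⟨v, h6, p, h7, h8, h9⟩ := h5
    have h10 := h9 a ha
    have h11 : n ≤ p := by
      have : (n : ℤ) ≤ p := by
        rw [h6, h7]
        nlinarith [sq_nonneg v.2.1, sq_nonneg v.2.2.1, sq_nonneg v.2.2.2]
      exact_mod_cast this
    have h12 : p ≤ a + 2 := by
      by_contra hcon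
      push Not at hcon
      have h13 : Odd p := h8.odd_of_ne_two (by omega)
      have h14 : Odd (p - a) := h10.odd_of_ne_two (by omega)
      obtain ⟨r, hr⟩ := h13
      obtain ⟨s, hs⟩ := h14
      obtain ⟨t, ht⟩ := hodd
      omega
    omega
  have h1 := Finset.card_le_card this
  rw [Nat.card_Icc] at h1
  omega

open Classical in
theorem part4 (hT : S_TRANS) (hM : S_MAY) (k : ℕ) : ∃ (S : Finset ℕ) (K : ℕ) (c : ℝ), S.card = k ∧
    (∀ h ∈ S, 1 ≤ h ∧ Even h) ∧ 0 < c ∧
    ∃ᶠ N : ℕ in atTop, c * N ≤ (cnt N (PP4 S) (c * N / Real.log N ^ K) : ℝ) := by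
  obtain ⟨H, K, c, hc, N0, hp⟩ := part1 hT hM k
  set F := (Icc 1 H).powersetCard k with hF
  set m : ℝ := (F.card : ℝ) + 1 with hm
  have hm1 : 1 ≤ m := by rw [hm]; linarith [(Nat.cast_nonneg F.card : (0 : ℝ) ≤ F.card)]
  have hex : ∃ S ∈ F, ∃ᶠ N : ℕ in atTop, c / m * N ≤ (cnt N (PP4 S) (c / m * N / Real.log N ^ K) : ℝ) := by
    by_contra hcon
    push Not at hcon
    have h1 : ∀ᶠ N : ℕ in atTop, ∀ S ∈ F, (cnt N (PP4 S) (c / m * N / Real.log N ^ K) : ℝ) < c / m * N := by
      rw [Filter.eventually_all_finset]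
      intro S hS
      exact hcon S hS
    obtain ⟨N, hN, hN2⟩ := (h1.and (eventually_ge_atTop (N0 + 3))).exists
    have hNr : (3 : ℝ) ≤ N := by exact_mod_cast (by omega : 3 ≤ N)
    have hl : 0 < Real.log N := Real.log_pos (by linarith)
    have hx : 0 < c * N / Real.log N ^ K := by positivity
    have h2 := hp N (by omega)
    have h3 : (cnt N (PP1 k H) (c * N / Real.log N ^ K) : ℝ) ≤ ∑ S ∈ F,
      (cnt N (PP4 S) (c * N / Real.log N ^ K / (F.card : ℝ)) : ℝ) := by
      exact_mod_cast cnt_split k H N _ hx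
    have h4 : ∀ S ∈ F, (cnt N (PP4 S) (c * N / Real.log N ^ K / (F.card : ℝ)) : ℝ) ≤ c / m * N := by
      intro S hS
      have hF0 : 0 < F.card := Finset.card_pos.2 ⟨S, hS⟩
      have hF0r : (0 : ℝ) < F.card := by exact_mod_cast hF0
      refine le_trans ?_ (hN S hS).le
      unfold cnt
      rw [Nat.cast_le]
      apply Finset.card_le_card
      intro n hn
      rw [mem_filter] at hn ⊢
      refine ⟨hn.1, hn.2.1, le_trans ?_ hn.2.2⟩
      have e : c / m * N / Real.log N ^ K = c * N / Real.log N ^ K / m := by ring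
      rw [e]
      apply div_le_div_of_nonneg_left hx.le hF0r
      rw [hm]; linarith
    have h5 : c * N ≤ F.card * (c / m * N) := by
      refine h2.trans (h3.trans ?_)
      have := Finset.sum_le_sum h4
      rw [Finset.sum_const, nsmul_eq_mul] at this
      exact this
    have h6 : (F.card : ℝ) * (c / m * N) = c * N * (F.card / m) := by ring
    rw [h6] at h5
    have h7 : (F.card : ℝ) / m < 1 := by
      rw [div_lt_one (by linarith)]
      rw [hm]; linarith
    have h8 : 0 < c * N := by positivity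
    nlinarith
  obtain ⟨S, hS, hfr⟩ := hex
  rw [hF, mem_powersetCard] at hS
  refine ⟨S, K, c / m, hS.2, ?_, by positivity, hfr⟩
  intro a ha
  refine ⟨(mem_Icc.1 (hS.1 ha)).1, ?_⟩
  by_contra hcon
  rw [Nat.not_even_iff_odd] at hcon
  have hcm : 0 < c / m := by positivity
  obtain ⟨N1, hN1⟩ := exists_nat_gt ((a + 2 : ℝ) / (c / m))
  obtain ⟨N, hN, hN2⟩ := (hfr.and_eventually (eventually_ge_atTop (N1 + 3))).exists
  have hNr : (3 : ℝ) ≤ N := by exact_mod_cast (by omega : 3 ≤ N)
  have hl : 0 < Real.log N := Real.log_pos (by linarith)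
  have h1 := cnt_odd S a ha hcon N (c / m * N / Real.log N ^ K) (by positivity)
  have h2 : ((cnt N (PP4 S) (c / m * N / Real.log N ^ K) : ℕ) : ℝ) ≤ a + 2 := by exact_mod_cast h1
  have h3 : (N1 : ℝ) ≤ N := by exact_mod_cast (by omega : N1 ≤ N)
  rw [div_lt_iff₀ hcm] at hN1
  nlinarith

end Pool.Agent.D0H11.TW
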