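import Mathlib
import Pool.Agent.D0H11.TW.TrA

/-! TRANS: many primes give many `n`. -/

set_option autoImplicit false

namespace Pool.Agent.D0H11.TW

open Finset Filter Pool.Agent.W65.FS

theorem log_small (K : ℕ) {a s : ℝ} (ha : 0 < a) (hs : 0 < s) :
    ∀ᶠ N : ℕ in atTop, Real.log N ^ K ≤ a * (N : ℝ) ^ s := by
  have h := (isLittleO_log_rpow_rpow_atTop (K : ℝ) hs).bound ha
  have h2 := tendsto_natCast_atTop_atTop.eventually h
  filter_upwards [h2, eventually_ge_atTop 3] with N h3 h4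
  have hN : (1 : ℝ) ≤ N := by exact_mod_cast (by omega : 1 ≤ N)
  have hlog : 0 ≤ Real.log N := Real.log_nonneg hN
  rw [Real.rpow_natCast, Real.norm_of_nonneg (by positivity), Real.norm_of_nonneg (by positivity)] at h3
  exact h3

theorem sieve_le {H : Finset ℤ} {δ : ℝ} (hδ : 0 < δ) {G : Finset ℕ} {N n : ℕ}
    (hG : ∀ p ∈ G, p.Prime ∧ ∀ h ∈ H, ∀ l : ℕ, l.Prime → (l : ℝ) ≤ (N : ℝ) ^ δ → ¬ (l : ℤ) ∣ (p : ℤ) - h)
    (hn : n ≤ N) : RS G n ⊆ by
      classical exact (preps n).filter (fun v => ∀ h ∈ H, ∀ l : ℕ, l.Prime → (l : ℝ) ≤ (n : ℝ) ^ δ →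
        ¬ (l : ℤ) ∣ pf v - h) := by
  classical
  intro v hv
  rw [mem_RS] at hv
  obtain ⟨h1, p, hp, h2⟩ := hv
  rw [mem_filter]
  refine ⟨?_, ?_⟩
  · unfold preps
    rw [mem_filter, mem_reps]
    exact ⟨h1, gc_one v p (hG p hp).1 h2⟩
  · intro h hh l hl hln
    rw [pf_eq, h2]
    refine (hG p hp).2 h hh l hl (hln.trans ?_)
    exact Real.rpow_le_rpow (by positivity) (by exact_mod_cast hn) hδ.le

theorem RS_props {G : Finset ℕ} {N B n : ℕ} (hG : ∀ p ∈ G, p ≤ N ∧ N ≤ B * p ∧ p.Prime) (hN : 2 * B < N)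
    (h : (RS G n).Nonempty) : Odd n ∧ N ≤ 7 * B * n ∧ n ≤ N := by
  obtain ⟨v, hv⟩ := h
  rw [mem_RS] at hv
  obtain ⟨h1, p, hp, h2⟩ := hv
  obtain ⟨h3, h4, h5⟩ := hG p hp
  have h6 := sum_le_Qf v
  have h7 := Qf_le_sum v
  have h8 := Qf_parity v
  rw [h1, h2] at h6 h7 h8
  have hp2 : p ≠ 2 := by
    rintro rfl
    omega
  have hodd : Odd p := h5.odd_of_ne_two hp2
  have h9 : p ≤ 7 * n := by exact_mod_cast h7
  have h10 : n ≤ p := by exact_mod_cast h6
  refine ⟨?_, ?_, h10.trans h3⟩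
  · obtain ⟨k, hk⟩ := hodd
    obtain ⟨j, hj⟩ := h8
    rw [Nat.odd_iff]
    omega
  · calc N ≤ B * p := h4
      _ ≤ B * (7 * n) := Nat.mul_le_mul_left _ h9
      _ = 7 * B * n := by ring

theorem trans (h11 : S_CLS) (h12 : S_THMA) (h14 : S_SV) (h15 : S_R4) (h16 : S_PHI) : S_TRANS := by
  classical
  intro H δ c0 B hH hδ hc0 hB
  have hBr : (1 : ℝ) ≤ B := by exact_mod_cast hB
  have hB0 : (0 : ℝ) < B := by linarith
  obtain ⟨c1, hc1, T0, hA⟩ := h12 B hBr
  obtain ⟨C, hC, n0, hSV⟩ := h14 H δ hH hδ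
  obtain ⟨C4, hC4, hR4⟩ := h15
  obtain ⟨C5, hC5, hPHI⟩ := h16
  set K := H.card with hK
  set c2 : ℝ := c0 * c1 / 1344000 with hc2
  have hc20 : 0 < c2 := by positivity
  set C3 : ℝ := C * 2 ^ K with hC3
  have hC30 : 0 < C3 := by positivity
  set c6 : ℝ := (c2 / (2 * C3 * (8 * C3 * Real.sqrt (C4 * C5) / c2 + 1))) ^ 2 / C4 with hc6
  have hc60 : 0 < c6 := by
    have : 0 < Real.sqrt (C4 * C5) := Real.sqrt_pos.2 (by positivity)
    positivity
  refine ⟨min (c2 / 8) c6, by positivity, ?_⟩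
  have hu : ∀ p : ℕ, ∃ u : Fin 4 → ℤ, p.Prime → 7 < p → (GoodU u ∧ (1680 : ℤ) ∣ (p : ℤ) - Qf u) := by
    intro p
    by_cases hp : p.Prime ∧ 7 < p
    · obtain ⟨u, h1, h2⟩ := h11 p hp.1 hp.2
      exact ⟨u, fun _ _ => ⟨h1, h2⟩⟩
    · exact ⟨0, fun h1 h2 => absurd ⟨h1, h2⟩ hp⟩
  choose u hu using hu
  obtain ⟨N1, hN1⟩ := eventually_atTop.1 (((log_small K (a := c0 / (2 * 840 ^ 4)) (s := 1 / 40) (by positivity)
    (by norm_num)).and (log_small K (a := c2 / 8) (s := 1 / 100) (by positivity) (by norm_num))).and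
    ((TT_tendsto.eventually_ge_atTop T0).and (eventually_ge_atTop (1 + 3 + 7 * B * (n0 + 7 * B) + 672000 +
      2 * B * 11289600 + B ^ 2))))
  refine ⟨N1, fun N hN G hG hGc => ?_⟩
  obtain ⟨⟨e1, e2⟩, e3, e4⟩ := hN1 N hN
  have hN3 : 3 ≤ N := by omega
  have hNr : (3 : ℝ) ≤ N := by exact_mod_cast hN3
  have hN0 : (0 : ℝ) < N := by linarith
  have hlog : 1 < Real.log N := by
    rw [Real.lt_log_iff_exp_lt hN0]
    exact lt_of_lt_of_le (Real.exp_one_lt_d9.trans (by norm_num)) hNr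
  have hlog0 : 0 < Real.log N := by linarith
  set M : ℝ := Real.log N ^ K with hM
  have hM0 : 0 < M := by positivity
  obtain ⟨T, hT⟩ : ∃ T : ℕ, T = TT N := ⟨_, rfl⟩
  have hTl := TT_low N
  have hTu := TT_upp N (by omega)
  have hT1 : 1 ≤ T := by rw [hT]; unfold TT; omega
  rw [← hT] at hTl hTu e3
  have hTr : (1 : ℝ) ≤ T := by exact_mod_cast hT1
  have hBN : 2 * B * 11289600 ≤ N := by omega
  -- the exceptional primes
  set bad : (Fin 4 → ℤ) → Finset ℕ := fun u => (Icc 1 (400 * T ^ 2)).filter (fun m : ℕ => (T : ℝ) ^ 2 / B ≤ m ∧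
      (∀ l : ℕ, l.Prime → 11 ≤ l → (l : ℝ) ≤ (T : ℝ) ^ (1 / 20 : ℝ) → ¬ (l : ℤ) ∣ 1680 * m + Qf u) ∧
      ((((box T).filter (fun t => qf u t = m)).card : ℕ) : ℝ) < c1 * (T : ℝ) ^ 2) with hbad
  have hbadc : ∀ u, GoodU u → ((bad u).card : ℝ) ≤ (T : ℝ) ^ (2 - 1 / 20 : ℝ) := fun u hu => hA T e3 u hu
  set m : ℕ → ℤ := fun p => ((p : ℤ) - Qf (u p)) / 1680 with hm
  have hp7 : ∀ p ∈ G, 7 < p := by
    intro p hp
    obtain ⟨h1, h2, h3, _⟩ := hG p hp
    by_contra hc
    have : B * p ≤ B * 7 := Nat.mul_le_mul_left _ (by omega)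
    omega
  have hup : ∀ p ∈ G, GoodU (u p) ∧ (p : ℤ) = 1680 * m p + Qf (u p) := by
    intro p hp
    obtain ⟨h1, h2⟩ := hu p (hG p hp).2.2.1 (hp7 p hp)
    refine ⟨h1, ?_⟩
    rw [hm]
    simp only
    rw [Int.mul_ediv_cancel' h2]
    ring
  set Gb := G.filter (fun p => (((box T).filter (fun t => qf (u p) t = m p)).card : ℝ) < c1 * (T : ℝ) ^ 2) with hGb
  set G' := G.filter (fun p => ¬ (((box T).filter (fun t => qf (u p) t = m p)).card : ℝ) < c1 * (T : ℝ) ^ 2) with hG'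
  have hsplit : Gb.card + G'.card = G.card := Finset.card_filter_add_card_filter_not _
  have hGbc : (Gb.card : ℝ) ≤ (840 : ℝ) ^ 4 * (T : ℝ) ^ (2 - 1 / 20 : ℝ) := by
    have h1 : Gb ⊆ (UU.filter GoodU).biUnion (fun w => (bad w).image (fun k : ℕ => (1680 * (k : ℤ) + Qf w).toNat)) := by
      intro p hp
      have hpG : p ∈ G := (mem_filter.1 hp).1
      have hpc := (mem_filter.1 hp).2
      obtain ⟨h2, h3⟩ := hup p hpG
      obtain ⟨h4, h5, h6, _⟩ := hG p hpG
      have h7 := Qf_u_bounds (u p) h2.1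
      -- lower bound of m p
      have hp8 : (N : ℝ) ≤ B * p := by exact_mod_cast h5
      have h8 : (22579200 : ℝ) ≤ p := by
        have h9 : (B : ℝ) * 22579200 ≤ N := by
          have h10 : ((2 * B * 11289600 : ℕ) : ℝ) ≤ N := by exact_mod_cast hBN
          push_cast at h10
          linarith
        have h10 : (B : ℝ) * 22579200 ≤ B * p := h9.trans hp8
        exact le_of_mul_le_mul_left h10 hB0
      have hQr : ((Qf (u p) : ℤ) : ℝ) ≤ 11289600 := by exact_mod_cast h7.2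
      have hQ0 : (0 : ℝ) ≤ ((Qf (u p) : ℤ) : ℝ) := by exact_mod_cast h7.1
      have h3r : (p : ℝ) = 1680 * ((m p : ℤ) : ℝ) + ((Qf (u p) : ℤ) : ℝ) := by exact_mod_cast h3
      have hmr : (p : ℝ) / 3360 ≤ ((m p : ℤ) : ℝ) := by
        rw [div_le_iff₀ (by norm_num)]
        linarith
      have hm1 : 1 ≤ m p := by
        have : (1 : ℝ) ≤ ((m p : ℤ) : ℝ) := by linarith [div_le_div_of_nonneg_right h8 (by norm_num : (0:ℝ) ≤ 3360)]
        exact_mod_cast this
      obtain ⟨k, hk⟩ := Int.eq_ofNat_of_zero_le (by omega : 0 ≤ m p)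
      have hk1 : 1 ≤ k := by omega
      have hkr : ((m p : ℤ) : ℝ) = k := by rw [hk]; simp
      rw [mem_biUnion]
      refine ⟨u p, ?_, ?_⟩
      · rw [mem_filter, mem_UU]
        exact ⟨h2.1, h2⟩
      · rw [mem_image]
        refine ⟨k, ?_, ?_⟩
        · rw [hbad]
          simp only
          rw [mem_filter, mem_Icc]
          refine ⟨⟨hk1, ?_⟩, ?_, ?_, ?_⟩
          · have h9 : (k : ℝ) ≤ 400 * (T : ℝ) ^ 2 := by
              have h10 : (p : ℝ) ≤ N := by exact_mod_cast h4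
              rw [hkr] at h3r
              linarith
            exact_mod_cast h9
          · rw [div_le_iff₀ hB0]
            have h9 : (N : ℝ) ≤ B * (3360 * k) := by
              refine hp8.trans ?_
              apply mul_le_mul_of_nonneg_left _ hB0.le
              rw [hkr, div_le_iff₀ (by norm_num)] at hmr
              linarith
            nlinarith
          · intro l hl hl11 hlT hdvd
            rw [← hk] at hdvd
            rw [← h3] at hdvd
            have h9 : l ∣ p := by exact_mod_cast hdvd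
            have h10 : l = p := (Nat.prime_dvd_prime_iff_eq hl h6).1 h9
            have h11 : (p : ℝ) ≤ T := by
              rw [← h10]
              refine hlT.trans ?_
              calc (T : ℝ) ^ (1 / 20 : ℝ) ≤ (T : ℝ) ^ (1 : ℝ) :=
                    Real.rpow_le_rpow_of_exponent_le hTr (by norm_num)
                _ = T := Real.rpow_one _
            have h12 : (N : ℝ) ≤ B * T := hp8.trans (mul_le_mul_of_nonneg_left h11 hB0.le)
            have h13 : (B : ℝ) ^ 2 ≤ N := by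
              have : B ^ 2 ≤ N := by omega
              exact_mod_cast this
            have h14 : (N : ℝ) ^ 2 ≤ (B : ℝ) ^ 2 * (T : ℝ) ^ 2 := by
              calc (N : ℝ) ^ 2 ≤ (B * T) ^ 2 := pow_le_pow_left₀ hN0.le h12 2
                _ = _ := by ring
            nlinarith
          · rw [← hk]
            exact hpc
        · have : (1680 * (k : ℤ) + Qf (u p)) = (p : ℤ) := by rw [h3, hk]
          rw [this]
          simp
    have h2 := Finset.card_le_card h1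
    have h3 : (((UU.filter GoodU).biUnion (fun w => (bad w).image (fun k : ℕ => (1680 * (k : ℤ) + Qf w).toNat))).card : ℝ) ≤
        ∑ w ∈ UU.filter GoodU, (T : ℝ) ^ (2 - 1 / 20 : ℝ) := by
      have h4 := Finset.card_biUnion_le (s := UU.filter GoodU)
        (t := fun w => (bad w).image (fun k : ℕ => (1680 * (k : ℤ) + Qf w).toNat))
      have h5 : (((UU.filter GoodU).biUnion (fun w => (bad w).image (fun k : ℕ => (1680 * (k : ℤ) + Qf w).toNat))).card : ℝ) ≤
        ∑ w ∈ UU.filter GoodU, (((bad w).image (fun k : ℕ => (1680 * (k : ℤ) + Qf w).toNat)).card : ℝ) := by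
        exact_mod_cast h4
      refine h5.trans (Finset.sum_le_sum fun w hw => ?_)
      have hw2 : GoodU w := (mem_filter.1 hw).2
      have hw3 := hbadc w hw2
      have hw4 : (((bad w).image (fun k : ℕ => (1680 * (k : ℤ) + Qf w).toNat)).card : ℝ) ≤ ((bad w).card : ℝ) := by
        exact_mod_cast Finset.card_image_le
      exact hw4.trans hw3
    have h4 : (Gb.card : ℝ) ≤ ∑ w ∈ UU.filter GoodU, (T : ℝ) ^ (2 - 1 / 20 : ℝ) := le_trans (by exact_mod_cast h2) h3
    refine h4.trans ?_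
    rw [Finset.sum_const, nsmul_eq_mul]
    apply mul_le_mul_of_nonneg_right _ (by positivity)
    have h5 : (UU.filter GoodU).card ≤ 840 ^ 4 := by
      rw [← card_UU]; exact Finset.card_filter_le _ _
    exact_mod_cast h5
  have hTpow : (T : ℝ) ^ (2 - 1 / 20 : ℝ) ≤ (N : ℝ) ^ (39 / 40 : ℝ) := by
    have h1 : (T : ℝ) ≤ (N : ℝ) ^ (1 / 2 : ℝ) := by
      rw [← Real.sqrt_eq_rpow]
      apply Real.le_sqrt_of_sq_le
      nlinarith
    calc (T : ℝ) ^ (2 - 1 / 20 : ℝ) ≤ ((N : ℝ) ^ (1 / 2 : ℝ)) ^ (2 - 1 / 20 : ℝ) :=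
          Real.rpow_le_rpow (by positivity) h1 (by norm_num)
      _ = (N : ℝ) ^ (39 / 40 : ℝ) := by
          rw [← Real.rpow_mul hN0.le]; norm_num
  have hNpow : (N : ℝ) ^ (39 / 40 : ℝ) * (N : ℝ) ^ (1 / 40 : ℝ) = N := by
    rw [← Real.rpow_add hN0]; norm_num
  have hG'c : c0 * N / (2 * M) ≤ (G'.card : ℝ) := by
    have h1 : (G.card : ℝ) = Gb.card + G'.card := by exact_mod_cast hsplit.symm
    have h2 : (840 : ℝ) ^ 4 * (N : ℝ) ^ (39 / 40 : ℝ) ≤ c0 * N / (2 * M) := by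
      rw [le_div_iff₀ (by positivity)]
      have h3 : (0 : ℝ) ≤ (N : ℝ) ^ (39 / 40 : ℝ) := by positivity
      calc (840 : ℝ) ^ 4 * (N : ℝ) ^ (39 / 40 : ℝ) * (2 * M)
          ≤ (840 : ℝ) ^ 4 * (N : ℝ) ^ (39 / 40 : ℝ) * (2 * (c0 / (2 * 840 ^ 4) * (N : ℝ) ^ (1 / 40 : ℝ))) := by
            gcongr
        _ = c0 * ((N : ℝ) ^ (39 / 40 : ℝ) * (N : ℝ) ^ (1 / 40 : ℝ)) := by
            field_simp
        _ = c0 * N := by rw [hNpow]
    have h3 : c0 * N / M = c0 * N / (2 * M) + c0 * N / (2 * M) := by field_simp; ring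
    have h4 : (840 : ℝ) ^ 4 * (T : ℝ) ^ (2 - 1 / 20 : ℝ) ≤ (840 : ℝ) ^ 4 * (N : ℝ) ^ (39 / 40 : ℝ) := by gcongr
    have h5 : c0 * N / M ≤ (G.card : ℝ) := hGc
    linarith
  -- total
  have htot := total_ge N G G' (filter_subset _ _) (fun p hp => ⟨(hG p hp).2.2.1.one_lt.le, (hG p hp).1⟩) T u m
    (fun p hp => (hup p (mem_filter.1 hp).1).2) (c1 * (T : ℝ) ^ 2) (fun p hp => not_lt.1 (mem_filter.1 hp).2)
  have hsum : c2 * (N : ℝ) ^ 2 / M ≤ ∑ n ∈ Icc 1 N, ((RS G n).card : ℝ) := by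
    refine le_trans ?_ htot
    have h1 : c2 * (N : ℝ) ^ 2 / M = (c0 * N / (2 * M)) * (c1 * (N / 672000)) := by
      rw [hc2]; field_simp; ring
    rw [h1]
    apply mul_le_mul hG'c _ (by positivity) (by positivity)
    apply mul_le_mul_of_nonneg_left _ hc1.le
    rw [div_le_iff₀ (by norm_num)]
    linarith
  -- pointwise bound
  have hr : ∀ n ∈ Icc 1 N, ((RS G n).card : ℝ) ≤ C3 * ((reps n).card : ℝ) * ((n : ℝ) / Nat.totient n) / M +
      (N : ℝ) ^ (99 / 100 : ℝ) := by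
    intro n hn
    rw [mem_Icc] at hn
    have hnr : (1 : ℝ) ≤ n := by exact_mod_cast hn.1
    by_cases hne : (RS G n).Nonempty
    · obtain ⟨h1, h2, h3⟩ := RS_props (fun p hp => ⟨(hG p hp).1, (hG p hp).2.1, (hG p hp).2.2.1⟩) (by omega) hne
      have h4 : n0 ≤ n := by
        by_contra hc
        have : 7 * B * n ≤ 7 * B * n0 := Nat.mul_le_mul_left _ (by omega)
        have h5 : 7 * B * (n0 + 7 * B) = 7 * B * n0 + 7 * B * (7 * B) := by ring
        have h6 : 7 * B * n0 < N := by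
          have : 0 < 7 * B * (7 * B) := by positivity
          omega
        omega
      have h5 := hSV n h4 h1
      have h6 := sieve_le (H := H) hδ (fun p hp => ⟨(hG p hp).2.2.1, (hG p hp).2.2.2⟩) hn.2 (G := G) (n := n)
      have h7 := Finset.card_le_card h6
      have h8 : ((RS G n).card : ℝ) ≤ C * ((preps n).card : ℝ) * ((n : ℝ) / Nat.totient n) / Real.log n ^ K +
          (n : ℝ) ^ (99 / 100 : ℝ) := by
        refine le_trans ?_ h5
        exact_mod_cast h7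
      have h9 : Real.log N ≤ 2 * Real.log n := by
        have h10 : (N : ℝ) ≤ (n : ℝ) ^ 2 := by
          have h11 : (7 * B) ≤ n := by
            by_contra hc
            have h12 : 7 * B * n ≤ 7 * B * (7 * B) := Nat.mul_le_mul_left _ (by omega)
            have h13 : 7 * B * (n0 + 7 * B) = 7 * B * n0 + 7 * B * (7 * B) := by ring
            omega
          have h12 : N ≤ n ^ 2 := by
            calc N ≤ 7 * B * n := h2
              _ ≤ n * n := Nat.mul_le_mul_right _ h11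
              _ = n ^ 2 := by ring
          exact_mod_cast h12
        have h11 := Real.log_le_log hN0 h10
        rwa [Real.log_pow, Nat.cast_ofNat] at h11
      have hlogn : 0 < Real.log n := by linarith
      have h10 : M ≤ 2 ^ K * Real.log n ^ K := by
        rw [hM, ← mul_pow]
        exact pow_le_pow_left₀ hlog0.le h9 K
      have hphi : (0 : ℝ) ≤ (n : ℝ) / Nat.totient n := by positivity
      have hpr : ((preps n).card : ℝ) ≤ ((reps n).card : ℝ) := by
        exact_mod_cast Finset.card_le_card (Finset.filter_subset _ _)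
      have h11 : C * ((preps n).card : ℝ) * ((n : ℝ) / Nat.totient n) / Real.log n ^ K ≤
          C3 * ((reps n).card : ℝ) * ((n : ℝ) / Nat.totient n) / M := by
        rw [div_le_div_iff₀ (by positivity) hM0, hC3]
        calc C * ((preps n).card : ℝ) * ((n : ℝ) / Nat.totient n) * M
            ≤ C * ((reps n).card : ℝ) * ((n : ℝ) / Nat.totient n) * (2 ^ K * Real.log n ^ K) := by gcongr
          _ = _ := by ring
      have h12 : (n : ℝ) ^ (99 / 100 : ℝ) ≤ (N : ℝ) ^ (99 / 100 : ℝ) :=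
        Real.rpow_le_rpow (by positivity) (by exact_mod_cast hn.2) (by norm_num)
      linarith
    · rw [Finset.not_nonempty_iff_eq_empty] at hne
      rw [hne, Finset.card_empty, Nat.cast_zero]
      positivity
  have hEN : 2 * N * (N : ℝ) ^ (99 / 100 : ℝ) ≤ c2 / 4 * ((N : ℝ) ^ 2 / M) := by
    have h1 : (N : ℝ) ^ (99 / 100 : ℝ) * (N : ℝ) ^ (1 / 100 : ℝ) = N := by
      rw [← Real.rpow_add hN0]; norm_num
    rw [mul_div_assoc', le_div_iff₀ hM0]
    calc 2 * N * (N : ℝ) ^ (99 / 100 : ℝ) * M ≤ 2 * N * (N : ℝ) ^ (99 / 100 : ℝ) * (c2 / 8 * (N : ℝ) ^ (1 / 100 : ℝ)) := by gcongr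
      _ = c2 / 4 * (N * ((N : ℝ) ^ (99 / 100 : ℝ) * (N : ℝ) ^ (1 / 100 : ℝ))) := by ring
      _ = c2 / 4 * (N : ℝ) ^ 2 := by rw [h1]; ring
  have hfin := cs_core N (by omega) (fun n => ((reps n).card : ℝ)) (fun n => (n : ℝ) / Nat.totient n)
    (fun n => ((RS G n).card : ℝ)) M C3 C4 C5 c2 ((N : ℝ) ^ (99 / 100 : ℝ)) hM0 hC30 hC4 hC5 hc20 (by positivity)
    (fun _ _ => by positivity) (fun _ _ => by positivity) hr (hR4 N) (hPHI N) hsum hEN
  -- conclusion
  have h1 : min (c2 / 8) c6 * N ≤ c6 * N := mul_le_mul_of_nonneg_right (min_le_right _ _) hN0.le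
  refine h1.trans (hfin.trans ?_)
  have h2 : ((Icc 1 N).filter (fun n => c2 / 8 * N / M ≤ ((RS G n).card : ℝ))) ⊆
      ((Icc 1 N).filter (fun n : ℕ => Odd n ∧ min (c2 / 8) c6 * N / Real.log N ^ H.card ≤
      (({v : Fin 4 → ℤ | ∑ i, v i ^ 2 = (n : ℤ) ∧ ∃ p ∈ G, Qf v = p}.ncard : ℕ) : ℝ))) := by
    intro n hn
    rw [mem_filter] at hn ⊢
    refine ⟨hn.1, ?_, ?_⟩
    · have h3 : (0 : ℝ) < ((RS G n).card : ℝ) := lt_of_lt_of_le (by positivity) hn.2
      have h4 : (RS G n).Nonempty := by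
        rw [← Finset.card_pos]
        exact_mod_cast h3
      exact (RS_props (fun p hp => ⟨(hG p hp).1, (hG p hp).2.1, (hG p hp).2.2.1⟩) (by omega) h4).1
    · rw [RS_ncard]
      refine le_trans ?_ hn.2
      apply div_le_div_of_nonneg_right _ hM0.le
      exact mul_le_mul_of_nonneg_right (min_le_left _ _) hN0.le
  have h3 := Finset.card_le_card h2
  have h4 : ((((Icc 1 N).filter (fun n => c2 / 8 * N / M ≤ ((RS G n).card : ℝ))).card : ℕ) : ℝ) ≤
      ((((Icc 1 N).filter (fun n : ℕ => Odd n ∧ min (c2 / 8) c6 * N / Real.log N ^ H.card ≤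
      (({v : Fin 4 → ℤ | ∑ i, v i ^ 2 = (n : ℤ) ∧ ∃ p ∈ G, Qf v = p}.ncard : ℕ) : ℝ))).card : ℕ) : ℝ) := by
    exact_mod_cast h3
  convert h4 using 4

end Pool.Agent.D0H11.TW
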